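import Pool.Agent.R235.PH.Stm

set_option autoImplicit false

open Set Filter Topology

namespace Pool.Agent.R235.PH.PAR

theorem local_nbhd {n : ℕ} {M : Type} [TopologicalSpace M] [T2Space M] [ChartedSpace (V n) M]
    (φ : ℕ → M ≃ₜ M) (φ0 : M ≃ₜ M) (h : Conv φ φ0) (U : Set M) (hU : IsOpen U) (y : M)
    (hy : φ0.symm y ∈ U) :
    ∃ N : Set M, IsOpen N ∧ y ∈ N ∧ ∀ᶠ k in atTop, MapsTo (φ k).symm N U := by
  have : LocallyCompactSpace M := ChartedSpace.locallyCompactSpace (V n) M
  have : LocallyConnectedSpace M := ChartedSpace.locallyConnectedSpace (V n) M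
  obtain ⟨K0, hK0c, hxK0, hK0U⟩ := exists_compact_subset hU hy
  have hfr : IsCompact (frontier (interior K0)) := by
    refine hK0c.of_isClosed_subset isClosed_frontier ?_
    exact frontier_subset_closure.trans
      ((closure_mono interior_subset).trans hK0c.isClosed.closure_eq.subset)
  have hA : IsCompact (φ0 '' frontier (interior K0)) := hfr.image φ0.continuous
  have hyA : Disjoint ({y} : Set M) (φ0 '' frontier (interior K0)) := by
    rw [Set.disjoint_singleton_left]
    rintro ⟨z, hz, rfl⟩
    rw [Homeomorph.symm_apply_apply] at hxK0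
    rw [isOpen_interior.frontier_eq] at hz
    exact hz.2 hxK0
  obtain ⟨N0, N1, hN0, hN1, hyN0, hAN1, hdis⟩ :=
    SeparatedNhds.of_isCompact_isCompact isCompact_singleton hA hyA
  have hy0 : y ∈ N0 := hyN0 rfl
  have hNo : IsOpen (connectedComponentIn N0 y) := hN0.connectedComponentIn
  refine ⟨connectedComponentIn N0 y, hNo, mem_connectedComponentIn hy0, ?_⟩
  have e1 : ∀ᶠ k in atTop, MapsTo (φ k) (frontier (interior K0)) N1 :=
    h _ _ hfr hN1 (fun z hz => hAN1 (mem_image_of_mem _ hz))
  have e2 : ∀ᶠ k in atTop, MapsTo (φ k) {φ0.symm y} (connectedComponentIn N0 y) := by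
    refine h _ _ isCompact_singleton hNo ?_
    intro z hz
    rw [mem_singleton_iff] at hz
    rw [hz, Homeomorph.apply_symm_apply]
    exact mem_connectedComponentIn hy0
  filter_upwards [e1, e2] with k h1 h2
  intro z hz
  have hpre : IsPreconnected ((φ k).symm '' connectedComponentIn N0 y) :=
    isPreconnected_connectedComponentIn.image _ (φ k).symm.continuous.continuousOn
  have hxin : φ0.symm y ∈ (φ k).symm '' connectedComponentIn N0 y :=
    ⟨φ k (φ0.symm y), h2 rfl, (φ k).symm_apply_apply _⟩
  by_contra hcon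
  have hz' : (φ k).symm z ∉ interior K0 := fun hh => hcon (hK0U (interior_subset hh))
  have hex : ∃ w, w ∈ (φ k).symm '' connectedComponentIn N0 y ∧ w ∈ frontier (interior K0) := by
    by_contra hno
    push Not at hno
    have hcov : (φ k).symm '' connectedComponentIn N0 y ⊆
        interior K0 ∪ (closure (interior K0))ᶜ := by
      intro w hw
      by_cases hw1 : w ∈ interior K0
      · exact Or.inl hw1
      · refine Or.inr fun hw2 => hno w hw ?_
        rw [isOpen_interior.frontier_eq]
        exact ⟨hw2, hw1⟩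
    have hz2 : (φ k).symm z ∈ (closure (interior K0))ᶜ := by
      rcases hcov (mem_image_of_mem _ hz) with h5 | h5
      · exact absurd h5 hz'
      · exact h5
    obtain ⟨w, _, hw2, hw3⟩ := hpre (interior K0) (closure (interior K0))ᶜ isOpen_interior
      isClosed_closure.isOpen_compl hcov ⟨_, hxin, hxK0⟩ ⟨_, mem_image_of_mem _ hz, hz2⟩
    exact hw3 (subset_closure hw2)
  obtain ⟨w, hw1, hw2⟩ := hex
  obtain ⟨v, hv, rfl⟩ := hw1
  have h3 := h1 hw2
  rw [Homeomorph.apply_symm_apply] at h3
  exact Set.disjoint_left.1 hdis (connectedComponentIn_subset _ _ hv) h3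

theorem t_AR : S_AR := by
  intro n M _ _ _ φ φ0 h K U hK hU hKU
  refine hK.induction_on (p := fun S => ∀ᶠ k in atTop, MapsTo (φ k).symm S U) ?_ ?_ ?_ ?_
  · exact Eventually.of_forall fun k => mapsTo_empty _ _
  · intro s t hst ht
    exact ht.mono fun k hk => hk.mono_left hst
  · intro s t hs ht
    filter_upwards [hs, ht] with k h1 h2
    exact h1.union h2
  · intro y hy
    obtain ⟨N, hN, hyN, he⟩ := local_nbhd (n := n) φ φ0 h U hU y (hKU hy)
    exact ⟨N, mem_nhdsWithin_of_mem_nhds (hN.mem_nhds hyN), he⟩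

end Pool.Agent.R235.PH.PAR
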