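import Pool.Agent.R235.PH.Stm

/-!
# MP_5d95cf_gt: piece CHO (existence of the lift)
-/

set_option autoImplicit false

open Set Filter Topology
open scoped ContDiff Manifold

namespace Pool.Agent.R235.PH.PCHO

open Pool.Agent.R235.PH

section
variable {n : ℕ}

/-- elementary matrix as a continuous linear map -/
noncomputable def El (n : ℕ) (i j : Fin n) : V n →L[ℝ] V n :=
  (ContinuousLinearMap.proj (R := ℝ) (φ := fun _ : Fin n => ℝ) j).smulRight (Pi.single i 1)

/-- the matrix as a continuous linear map -/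
noncomputable def Qh (Q : V n → Matrix (Fin n) (Fin n) ℝ) (z : V n) : V n →L[ℝ] V n :=
  LinearMap.toContinuousLinearMap (Q z).mulVecLin

lemma Qh_apply (Q : V n → Matrix (Fin n) (Fin n) ℝ) (z ξ : V n) :
    Qh Q z ξ = (Q z).mulVec ξ := rfl

lemma Qh_eq (Q : V n → Matrix (Fin n) (Fin n) ℝ) (z : V n) :
    Qh Q z = ∑ i, ∑ j, Q z i j • El n i j := by
  ext ξ k
  rw [Qh_apply]
  simp only [ContinuousLinearMap.sum_apply, ContinuousLinearMap.smul_apply, El,
    ContinuousLinearMap.smulRight_apply, ContinuousLinearMap.proj_apply, Finset.sum_apply,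
    Pi.smul_apply, smul_eq_mul, Matrix.mulVec, dotProduct, Pi.single_apply]
  symm
  rw [Finset.sum_eq_single k]
  · simp
  · intro b _ hb
    simp [Ne.symm hb]
  · intro h
    exact absurd (Finset.mem_univ _) h

lemma Qh_smooth {Q : V n → Matrix (Fin n) (Fin n) ℝ} {Ω : Set (V n)}
    (h : ∀ i j, ContDiffOn ℝ ∞ (fun z => Q z i j) Ω) : ContDiffOn ℝ ∞ (Qh Q) Ω := by
  have : Qh Q = fun z => ∑ i, ∑ j, Q z i j • El n i j := funext (Qh_eq Q)
  rw [this]
  exact ContDiffOn.sum fun i _ => ContDiffOn.sum fun j _ => (h i j).smul contDiffOn_const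

/-- the range of a matrix of rank `r` is parametrised and projected isomorphically to `V r` -/
lemma exists_AB (P : Matrix (Fin n) (Fin n) ℝ) :
    ∃ (A : V n →L[ℝ] V P.rank) (B : V P.rank →L[ℝ] V n), ∀ a, A (P.mulVec (B a)) = a := by
  have hr : Module.finrank ℝ (LinearMap.range P.mulVecLin) = P.rank := rfl
  let b := Module.finBasisOfFinrankEq ℝ (LinearMap.range P.mulVecLin) hr
  have hx : ∀ i, ∃ x, P.mulVecLin x = (b i : V n) := fun i => (b i).2
  choose x hx using hx
  let B : V P.rank →ₗ[ℝ] V n := Fintype.linearCombination ℝ x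
  have hB : ∀ a, P.mulVecLin (B a) = ∑ i, a i • (b i : V n) := by
    intro a
    simp only [B, Fintype.linearCombination_apply, map_sum, map_smul, hx]
  have hinj : LinearMap.ker (P.mulVecLin.comp B) = ⊥ := by
    rw [LinearMap.ker_eq_bot']
    intro a ha
    rw [LinearMap.comp_apply, hB] at ha
    have h2 : ∑ i, a i • b i = 0 := by
      apply Subtype.ext
      push_cast
      simpa using ha
    funext i
    exact (Fintype.linearIndependent_iff.1 b.linearIndependent) a h2 i
  obtain ⟨A, hA⟩ := LinearMap.exists_leftInverse_of_injective _ hinj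
  refine ⟨LinearMap.toContinuousLinearMap A, LinearMap.toContinuousLinearMap B, fun a => ?_⟩
  exact LinearMap.congr_fun hA a

/-- characteristic property -/
lemma char_aux {r : ℕ} (P : Matrix (Fin n) (Fin n) ℝ) (hr : P.rank = r) (A : V n →L[ℝ] V r)
    (Z : V r → V n) (hZ : ∀ a, A (P.mulVec (Z a)) = a) (ξ : V n) :
    P.mulVec (Z (A (P.mulVec ξ))) = P.mulVec ξ := by
  let R := LinearMap.range P.mulVecLin
  let f : R →ₗ[ℝ] V r := (A : V n →ₗ[ℝ] V r).comp R.subtype
  have hsurj : Function.Surjective f := fun a => ⟨⟨P.mulVec (Z a), ⟨Z a, rfl⟩⟩, hZ a⟩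
  have hfin : Module.finrank ℝ R = Module.finrank ℝ (V r) := by
    rw [Module.finrank_fin_fun]
    exact hr
  have hinj : Function.Injective f :=
    (LinearMap.injective_iff_surjective_of_finrank_eq_finrank hfin).2 hsurj
  have h1 : (⟨P.mulVec (Z (A (P.mulVec ξ))), ⟨_, rfl⟩⟩ : R) = ⟨P.mulVec ξ, ⟨ξ, rfl⟩⟩ := by
    apply hinj
    change A (P.mulVec (Z (A (P.mulVec ξ)))) = A (P.mulVec ξ)
    rw [hZ]
  exact congrArg Subtype.val h1

end

theorem t_CHO : S_CHO := by
  intro n Ω U Q p hQ hp hU hpU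
  obtain ⟨A, B, hAB⟩ := exists_AB (Q p)
  have hQs := Qh_smooth hQ.smooth
  -- the minor
  let M : V n → (V (Q p).rank →L[ℝ] V (Q p).rank) := fun z => A.comp ((Qh Q z).comp B)
  have hM : ContDiffOn ℝ ∞ M Ω :=
    contDiffOn_const.clm_comp (hQs.clm_comp contDiffOn_const)
  have hMp : M p = 1 := by
    ext a : 1
    exact hAB a
  let O : Set (V n) := (Ω ∩ M ⁻¹' {u | IsUnit u}) ∩ U
  have hO : IsOpen O := (hM.continuousOn.isOpen_inter_preimage hQ.op Units.isOpen).inter hU
  have hpO : p ∈ O := ⟨⟨hp, by change IsUnit (M p); rw [hMp]; exact isUnit_one⟩, hpU⟩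
  let ζ : V n → (V (Q p).rank →L[ℝ] V n) := fun z => B.comp (Ring.inverse (M z))
  let L0 : V n → (V (Q p).rank →L[ℝ] V n) := fun z => (Qh Q z).comp (ζ z)
  have hinv : ∀ z ∈ O, ContDiffAt ℝ ∞ (fun z => Ring.inverse (M z)) z := by
    intro z hz
    obtain ⟨u, hu⟩ : IsUnit (M z) := hz.1.2
    have h1 : ContDiffAt ℝ ∞ Ring.inverse (M z) := by
      rw [← hu]
      exact contDiffAt_ringInverse ℝ u
    exact h1.comp z (hM.contDiffAt (hQ.op.mem_nhds hz.1.1))
  have hζ : ∀ z ∈ O, ContDiffAt ℝ ∞ ζ z := fun z hz =>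
    contDiffAt_const.clm_comp (hinv z hz)
  have hL0 : ∀ z ∈ O, ContDiffAt ℝ ∞ L0 z := fun z hz =>
    (hQs.contDiffAt (hQ.op.mem_nhds hz.1.1)).clm_comp (hζ z hz)
  have hsec0 : ∀ z ∈ O, ∀ a, A ((Q z).mulVec (ζ z a)) = a := by
    intro z hz a
    have h1 : M z * Ring.inverse (M z) = 1 := Ring.mul_inverse_cancel _ hz.1.2
    exact DFunLike.congr_fun h1 a
  -- the cutoff
  obtain ⟨ρ, hρ, hball⟩ := Metric.isOpen_iff.1 hO p hpO
  let χ : ContDiffBump p := ⟨ρ / 4, ρ / 2, by linarith, by linarith⟩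
  have hsub : Metric.closedBall p (ρ / 2) ⊆ O :=
    (Metric.closedBall_subset_ball (by linarith)).trans hball
  refine ⟨A, fun z => χ z • L0 z, ζ, Metric.ball p (ρ / 4), Metric.mem_ball_self (by linarith),
    ?_, ?_, ?_⟩
  · intro z hz
    exact (hball (Metric.ball_subset_ball (by linarith) hz)).2
  · intro z hz
    exact (hball (Metric.ball_subset_ball (by linarith) hz)).1.1
  have hWO : Metric.ball p (ρ / 4) ⊆ O := (Metric.ball_subset_ball (by linarith)).trans hball
  have hone : ∀ z ∈ Metric.ball p (ρ / 4), χ z = 1 := fun z hz =>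
    χ.one_of_mem_closedBall (Metric.ball_subset_closedBall hz)
  refine ⟨Metric.isOpen_ball, ?_, ?_, ?_, ?_, ?_, ?_⟩
  · rw [contDiff_iff_contDiffAt]
    intro z
    by_cases hz : z ∈ O
    · exact (χ.contDiff.contDiffAt).smul (hL0 z hz)
    · have h1 : z ∉ tsupport (χ : V n → ℝ) := by
        rw [χ.tsupport_eq]
        exact fun h => hz (hsub h)
      have h2 : (χ : V n → ℝ) =ᶠ[𝓝 z] 0 := notMem_tsupport_iff_eventuallyEq.1 h1
      have h3 : (fun z => χ z • L0 z) =ᶠ[𝓝 z] fun _ => 0 := by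
        filter_upwards [h2] with w hw
        rw [hw]
        simp
      exact contDiffAt_const.congr_of_eventuallyEq h3
  · exact χ.hasCompactSupport.smul_right
  · intro z hz
    exact (hζ z (hWO hz)).continuousAt.continuousWithinAt
  · intro z hz a
    simp only [hone z hz, one_smul]
    exact hsec0 z (hWO hz) a
  · intro z hz a
    simp only [hone z hz, one_smul]
    rfl
  · intro z hz hr ξ
    simp only [hone z hz, one_smul]
    exact char_aux (Q z) hr A (fun a => ζ z a) (hsec0 z (hWO hz)) ξ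

end Pool.Agent.R235.PH.PCHO
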