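import Pool.Agent.R235.PH.Stm

/-! Pieces CJ and RK of project PH. -/

set_option autoImplicit false

open Set Filter Topology
open scoped ContDiff Manifold

namespace Pool.Agent.R235.PH.PCJ

section
variable {n : ℕ} {M : Type} [TopologicalSpace M] [ChartedSpace (V n) M]

lemma sm_comp {f : M → ℝ} {ψ : M ≃ₜ M} (hf : Sm n f)
    (hψ : ContMDiff 𝓘(ℝ, V n) 𝓘(ℝ, V n) ∞ ψ) : Sm n (f ∘ ψ) :=
  ContMDiff.comp hf hψ

lemma comp_symm_self {α : Type} (f : M → α) (ψ : M ≃ₜ M) : (f ∘ ψ.symm) ∘ ψ = f := by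
  funext x
  simp

lemma comp_self_symm {α : Type} (f : M → α) (ψ : M ≃ₜ M) : (f ∘ ψ) ∘ ψ.symm = f := by
  funext x
  simp

lemma isPD_symm {P : Poisson n M} {ψ : M ≃ₜ M} (h : IsPD P ψ) : IsPD P ψ.symm := by
  refine ⟨h.2.1, h.1, fun f g hf hg => ?_⟩
  have h1 := h.2.2 (f ∘ ψ.symm) (g ∘ ψ.symm) (sm_comp hf h.2.1) (sm_comp hg h.2.1)
  rw [comp_symm_self, comp_symm_self] at h1
  rw [h1, comp_self_symm]

lemma hp_map {P : Poisson n M} {ψ : M ≃ₜ M} {U W : Set M} (h : IsPD P ψ) (hUW : MapsTo ψ U W)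
    {a b : M} (hab : HP P U a b) : HP P W (ψ a) (ψ b) := by
  obtain ⟨γ, N, k, ζ, h1, h2, h3, h4, h5, h6, h7⟩ := hab
  refine ⟨fun t => ψ (γ t), N, fun i => k i ∘ ψ.symm, ζ, ψ.continuous.comp_continuousOn h1,
    fun t ht => hUW (h2 t ht), congrArg ψ h3, congrArg ψ h4, fun i => sm_comp (h5 i) h.2.1, h6,
    fun f hf t ht => ?_⟩
  have h8 := h7 (f ∘ ψ) (sm_comp hf h.1) t ht
  have h9 : ∀ i, P.br (f ∘ ψ) (k i) (γ t) = P.br f (k i ∘ ψ.symm) (ψ (γ t)) := by
    intro i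
    have h10 := h.2.2 f (k i ∘ ψ.symm) hf (sm_comp (h5 i) h.2.1)
    rw [comp_symm_self] at h10
    rw [h10]
    rfl
  simp only [h9] at h8
  exact h8

lemma rk_of {P : Poisson n M} {ψ : M ≃ₜ M} (h : IsPD P ψ) {r : ℕ} {x : M}
    (hr : RkGe P r (ψ x)) : RkGe P r x := by
  obtain ⟨f, g, hf, hg, hd⟩ := hr
  refine ⟨fun i => f i ∘ ψ, fun i => g i ∘ ψ, fun i => sm_comp (hf i) h.1,
    fun i => sm_comp (hg i) h.1, ?_⟩
  have h1 : (Matrix.of fun i j => P.br (f i ∘ ψ) (g j ∘ ψ) x) =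
      Matrix.of fun i j => P.br (f i) (g j) (ψ x) := by
    ext i j
    simp only [Matrix.of_apply]
    rw [h.2.2 _ _ (hf i) (hg j)]
    rfl
  rw [h1]
  exact hd

lemma hp_rev {P : Poisson n M} {U : Set M} {a b : M} (h : HP P U a b) : HP P U b a := by
  obtain ⟨γ, N, k, ζ, h1, h2, h3, h4, h5, h6, h7⟩ := h
  have hm : MapsTo (fun t : ℝ => 1 - t) (Icc 0 1) (Icc 0 1) := by
    intro t ht
    exact ⟨by linarith [ht.2], by linarith [ht.1]⟩
  refine ⟨fun t => γ (1 - t), N, k, fun i t => -ζ i (1 - t), ?_, fun t ht => h2 _ (hm ht), ?_, ?_,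
    h5, fun i => ((h6 i).comp (continuous_const.sub continuous_id)).neg, fun f hf t ht => ?_⟩
  · exact h1.comp (continuous_const.sub continuous_id).continuousOn hm
  · simp only [sub_zero]
    exact h4
  · simp only [sub_self]
    exact h3
  · have h8 := h7 f hf (1 - t) (hm ht)
    have h9 : HasDerivWithinAt (fun t : ℝ => 1 - t) (-1) (Icc 0 1) t := by
      have := (hasDerivWithinAt_id t (Icc (0 : ℝ) 1)).const_sub 1
      simpa using this
    have h10 := h8.comp t h9 hm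
    have h11 : (∑ i, ζ i (1 - t) * P.br f (k i) (γ (1 - t))) * -1 =
        ∑ i, -ζ i (1 - t) * P.br f (k i) (γ (1 - t)) := by
      rw [Finset.sum_mul]
      refine Finset.sum_congr rfl fun i _ => ?_
      ring
    rw [h11] at h10
    exact h10

end

/-- piece CJ -/
theorem t_CJ : S_CJ := by
  intro n M _ _ _ _ P ψ U W h hUW a b hab
  exact hp_map h hUW hab

end Pool.Agent.R235.PH.PCJ

namespace Pool.Agent.R235.PH.PRK

open PCJ

/-- piece RK -/
theorem t_RK : S_RK := by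
  intro n M _ _ _ _ P
  refine ⟨fun ψ h => isPD_symm h, fun ψ h r x => ⟨rk_of h, fun hr => ?_⟩, ?_, ?_⟩
  · refine rk_of (isPD_symm h) ?_
    rw [ψ.symm_apply_apply]
    exact hr
  · intro r a x ha hr
    obtain ⟨f, g, hf, hg, hd⟩ := hr
    have hc : Continuous fun y => (Matrix.of fun i j => P.br (f i) (g j) y).det := by
      refine Continuous.matrix_det ?_
      refine continuous_matrix fun i j => ?_
      exact (P.smooth _ _ (hf i) (hg j)).continuous
    have h1 := ((hc.tendsto x).comp ha).eventually_ne hd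
    filter_upwards [h1] with k hk
    exact ⟨f, g, hf, hg, hk⟩
  · intro U a b h
    refine ⟨hp_rev h, ?_, ?_⟩
    · obtain ⟨γ, N, k, ζ, h1, h2, h3, h4, -⟩ := h
      rw [← h3]
      exact h2 0 ⟨le_refl _, zero_le_one⟩
    · obtain ⟨γ, N, k, ζ, h1, h2, h3, h4, -⟩ := h
      rw [← h4]
      exact h2 1 ⟨zero_le_one, le_refl _⟩

end Pool.Agent.R235.PH.PRK
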