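import Pool.Agent.R235.PH.Stm

/-!
# Poisson structures and admissible curves in coordinates
-/

set_option autoImplicit false

open Set Filter Topology
open scoped ContDiff Manifold

namespace Pool.Agent.R235.PH.PCP

variable {n : ℕ} {M : Type} [TopologicalSpace M] [ChartedSpace (V n) M]

lemma pd_congr {i : Fin n} {f g : V n → ℝ} {x : V n} (h : f =ᶠ[𝓝 x] g) : pd i f x = pd i g x := by
  unfold pd
  rw [h.fderiv_eq]

lemma pd_coord (a i : Fin n) (x : V n) : pd a (fun w : V n => w i) x = if i = a then 1 else 0 := by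
  unfold pd
  have : HasFDerivAt (fun w : V n => w i) (ContinuousLinearMap.proj (R := ℝ) i : V n →L[ℝ] ℝ) x :=
    (ContinuousLinearMap.proj (R := ℝ) (φ := fun _ : Fin n => ℝ) i).hasFDerivAt
  rw [this.fderiv]
  simp [Pi.single_apply]

lemma pd_y {P : Poisson n M} {e : OpenPartialHomeomorph M (V n)} {y : Fin n → M → ℝ}
    {Q : V n → Matrix (Fin n) (Fin n) ℝ} (hC : Coord P e y Q) (a i : Fin n) {z : V n}
    (hz : z ∈ e.target) : pd a (fun w => y i (e.symm w)) z = if i = a then 1 else 0 := by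
  rw [← pd_coord a i z]
  apply pd_congr
  filter_upwards [e.open_target.mem_nhds hz] with w hw
  rw [hC.ye _ (e.map_target hw), e.right_inv hw]

lemma br_y_left {P : Poisson n M} {e : OpenPartialHomeomorph M (V n)} {y : Fin n → M → ℝ}
    {Q : V n → Matrix (Fin n) (Fin n) ℝ} (hC : Coord P e y Q) (i : Fin n) (g : M → ℝ)
    (hg : Sm n g) {x : M} (hx : x ∈ e.source) :
    P.br (y i) g x = ∑ b, pd b (fun z => g (e.symm z)) (e x) * Q (e x) i b := by
  rw [hC.form _ _ (hC.ysm i) hg x hx]
  simp_rw [pd_y hC _ i (e.map_source hx)]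
  rw [Finset.sum_eq_single i]
  · simp
  · intro b _ hb
    simp [Ne.symm hb]
  · simp

lemma br_y_right {P : Poisson n M} {e : OpenPartialHomeomorph M (V n)} {y : Fin n → M → ℝ}
    {Q : V n → Matrix (Fin n) (Fin n) ℝ} (hC : Coord P e y Q) (i : Fin n) (f : M → ℝ)
    (hf : Sm n f) {x : M} (hx : x ∈ e.source) :
    P.br f (y i) x = ∑ a, pd a (fun z => f (e.symm z)) (e x) * Q (e x) a i := by
  rw [hC.form _ _ hf (hC.ysm i) x hx]
  simp_rw [pd_y hC _ i (e.map_source hx)]
  refine Finset.sum_congr rfl fun a _ => ?_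
  rw [Finset.sum_eq_single i]
  · simp
  · intro b _ hb
    simp [Ne.symm hb]
  · simp

lemma epois {P : Poisson n M} {e : OpenPartialHomeomorph M (V n)} {y : Fin n → M → ℝ}
    {Q : V n → Matrix (Fin n) (Fin n) ℝ} (hC : Coord P e y Q) : EPois e.target Q := by
  have key : ∀ z ∈ e.target, ∀ i j l : Fin n, P.br (y i) (P.br (y j) (y l)) (e.symm z) =
      ∑ k, Q z i k * pd k (fun w => Q w j l) z := by
    intro z hz i j l
    rw [br_y_left hC i _ (P.smooth _ _ (hC.ysm j) (hC.ysm l)) (e.map_target hz), e.right_inv hz]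
    refine Finset.sum_congr rfl fun k _ => ?_
    rw [mul_comm]
    congr 1
    apply pd_congr
    filter_upwards [e.open_target.mem_nhds hz] with w hw
    exact (hC.Qe w hw j l).symm
  refine ⟨e.open_target, ?_, ?_, ?_⟩
  · intro i j
    exact (hC.sm _ (P.smooth _ _ (hC.ysm i) (hC.ysm j))).congr (fun z hz => hC.Qe z hz i j)
  · intro z hz i j
    rw [hC.Qe z hz, hC.Qe z hz, P.anti _ _ (hC.ysm i) (hC.ysm j)]
    rfl
  · intro z hz i j l
    have h := congrFun (P.jac _ _ _ (hC.ysm i) (hC.ysm j) (hC.ysm l)) (e.symm z)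
    simp only [Pi.add_apply, Pi.zero_apply] at h
    rw [key z hz, key z hz, key z hz, ← Finset.sum_add_distrib, ← Finset.sum_add_distrib] at h
    exact h

lemma pd_contOn {i : Fin n} {F : V n → ℝ} {S : Set (V n)} (hS : IsOpen S)
    (hF : ContDiffOn ℝ ∞ F S) : ContinuousOn (pd i F) S := by
  have h1 : ContinuousOn (fun z => fderiv ℝ F z) S :=
    hF.continuousOn_fderiv_of_isOpen hS (by norm_num)
  exact h1.clm_apply continuousOn_const

lemma curve_down {P : Poisson n M} {e : OpenPartialHomeomorph M (V n)} {y : Fin n → M → ℝ}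
    {Q : V n → Matrix (Fin n) (Fin n) ℝ} (hC : Coord P e y Q) (W : Set M) (hW : W ⊆ e.source)
    (a b : M) (h : HP P W a b) : EPath Q (e '' W) (e a) (e b) := by
  obtain ⟨γ, N, h, ζ, hγ, hγW, h0, h1, hsm, hζ, hder⟩ := h
  have hsrc : ∀ t ∈ Icc (0 : ℝ) 1, γ t ∈ e.source := fun t ht => hW (hγW t ht)
  have hc : ContinuousOn (fun t => e (γ t)) (Icc 0 1) :=
    e.continuousOn.comp hγ hsrc
  have htg : ∀ t ∈ Icc (0 : ℝ) 1, e (γ t) ∈ e.target := fun t ht => e.map_source (hsrc t ht)
  set Z : ℝ → V n := fun t b => ∑ i, ζ i t * pd b (fun z => h i (e.symm z)) (e (γ t)) with hZ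
  have hZc : ContinuousOn Z (Icc 0 1) := by
    rw [continuousOn_pi]
    intro b
    refine continuousOn_finsetSum _ fun i _ => ?_
    exact (hζ i).continuousOn.mul
      ((pd_contOn e.open_target (hC.sm _ (hsm i))).comp hc htg)
  refine ⟨fun t => e (γ t), fun t => Z (projIcc (0 : ℝ) 1 zero_le_one t), ?_, ?_, ?_, ?_, ?_⟩
  · exact hZc.comp_continuous (continuous_subtype_val.comp continuous_projIcc)
      (fun t => (projIcc (0 : ℝ) 1 zero_le_one t).2)
  · intro t ht
    exact ⟨γ t, hγW t ht, rfl⟩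
  · simp only [h0]
  · simp only [h1]
  · intro t ht
    have hpr : ((projIcc (0 : ℝ) 1 zero_le_one t : Icc (0 : ℝ) 1) : ℝ) = t := by
      rw [projIcc_of_mem zero_le_one ht]
    show HasDerivWithinAt (fun t => e (γ t)) ((Q (e (γ t))).mulVec
      (Z (projIcc (0 : ℝ) 1 zero_le_one t))) (Icc 0 1) t
    rw [hpr, hasDerivWithinAt_pi]
    intro l
    have hd := hder (y l) (hC.ysm l) t ht
    have hd' : HasDerivWithinAt (fun s => e (γ s) l) (∑ i, ζ i t * P.br (y l) (h i) (γ t))
        (Icc 0 1) t :=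
      hd.congr (fun s hs => (hC.ye _ (hsrc s hs) l).symm) (hC.ye _ (hsrc t ht) l).symm
    have heq : (∑ i, ζ i t * P.br (y l) (h i) (γ t)) = ((Q (e (γ t))).mulVec (Z t)) l := by
      simp only [Matrix.mulVec, dotProduct, hZ]
      simp_rw [Finset.mul_sum]
      rw [Finset.sum_comm]
      refine Finset.sum_congr rfl fun i _ => ?_
      rw [br_y_left hC l (h i) (hsm i) (hsrc t ht), Finset.mul_sum]
      refine Finset.sum_congr rfl fun b _ => ?_
      ring
    rw [← heq]
    exact hd'

lemma fderiv_sum (F : V n → ℝ) (z v : V n) : fderiv ℝ F z v = ∑ l, v l * pd l F z := by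
  have hv : v = ∑ l, v l • (Pi.single l (1 : ℝ) : V n) := by
    ext k
    simp [Finset.sum_apply, Pi.single_apply]
  conv_lhs => rw [hv]
  rw [map_sum]
  refine Finset.sum_congr rfl fun l _ => ?_
  rw [map_smul]
  rfl

lemma curve_up {P : Poisson n M} {e : OpenPartialHomeomorph M (V n)} {y : Fin n → M → ℝ}
    {Q : V n → Matrix (Fin n) (Fin n) ℝ} (hC : Coord P e y Q) (W : Set (V n)) (hW : W ⊆ e.target)
    (a b : V n) (h : EPath Q W a b) : HP P (e.symm '' W) (e.symm a) (e.symm b) := by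
  obtain ⟨c, ζ, hζ, hcW, h0, h1, hder⟩ := h
  have htg : ∀ t ∈ Icc (0 : ℝ) 1, c t ∈ e.target := fun t ht => hW (hcW t ht)
  have hc : ContinuousOn c (Icc 0 1) := fun t ht => (hder t ht).continuousWithinAt
  refine ⟨fun t => e.symm (c t), n, y, fun m t => ζ t m, ?_, ?_, ?_, ?_, hC.ysm, ?_, ?_⟩
  · exact e.symm.continuousOn.comp hc htg
  · intro t ht
    exact ⟨c t, hcW t ht, rfl⟩
  · simp only [h0]
  · simp only [h1]
  · intro i
    exact (continuous_apply i).comp hζ
  · intro f hf t ht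
    have hF := hC.sm f hf
    have hFd : HasFDerivAt (fun z => f (e.symm z)) (fderiv ℝ (fun z => f (e.symm z)) (c t)) (c t) :=
      ((hF.differentiableOn (by norm_num)).differentiableAt
        (e.open_target.mem_nhds (htg t ht))).hasFDerivAt
    have hcomp := hFd.comp_hasDerivWithinAt t (hder t ht)
    have heq : (∑ i, ζ t i * P.br f (y i) (e.symm (c t))) =
        fderiv ℝ (fun z => f (e.symm z)) (c t) ((Q (c t)).mulVec (ζ t)) := by
      rw [fderiv_sum]
      simp only [Matrix.mulVec, dotProduct]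
      simp_rw [Finset.sum_mul]
      rw [Finset.sum_comm]
      refine Finset.sum_congr rfl fun i _ => ?_
      rw [br_y_right hC i f hf (e.map_target (htg t ht)), e.right_inv (htg t ht), Finset.mul_sum]
      refine Finset.sum_congr rfl fun b _ => ?_
      ring
    rw [heq]
    exact hcomp

theorem t_CP : S_CP := by
  intro n M _ _ _ _ P e y Q hC
  exact ⟨epois hC, fun W hW a b h => curve_down hC W hW a b h,
    fun W hW a b h => curve_up hC W hW a b h⟩

end Pool.Agent.R235.PH.PCP
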