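import Pool.Agent.R235.PH.Stm

/-!
# MP_5d95cf_gt (Q1), piece CR: the rank in coordinates; piece FIN: the rank is finite
-/

set_option autoImplicit false

open Set Filter Topology
open scoped ContDiff Manifold Matrix

namespace Pool.Agent.R235.PH.PCR

open Pool.Agent.R235.PH

/-- matrices `F`, `B` with `F * Q * B = 1` -/
theorem exists_minor {n r : ℕ} (Q : Matrix (Fin n) (Fin n) ℝ) (h : r ≤ Q.rank) :
    ∃ (F : Matrix (Fin r) (Fin n) ℝ) (B : Matrix (Fin n) (Fin r) ℝ), F * Q * B = 1 := by
  classical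
  have hfr : Module.finrank ℝ (LinearMap.range Q.mulVecLin) = Q.rank := rfl
  let b := Module.finBasis ℝ (LinearMap.range Q.mulVecLin)
  let v : Fin r → LinearMap.range Q.mulVecLin := fun i => b (Fin.castLE h i)
  have hv : LinearIndependent ℝ v := b.linearIndependent.comp _ (Fin.castLE_injective h)
  have hv' : LinearIndependent ℝ fun i => ((v i : LinearMap.range Q.mulVecLin) : Fin n → ℝ) :=
    hv.map' (LinearMap.range Q.mulVecLin).subtype (Submodule.ker_subtype _)
  have hB : ∀ i : Fin r, ∃ w : Fin n → ℝ, Q.mulVecLin w = (v i : Fin n → ℝ) := fun i =>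
    LinearMap.mem_range.1 (v i).2
  choose w hw using hB
  let T : (Fin r → ℝ) →ₗ[ℝ] (Fin n → ℝ) :=
    Fintype.linearCombination ℝ fun i => ((v i : LinearMap.range Q.mulVecLin) : Fin n → ℝ)
  have hT : LinearMap.ker T = ⊥ := by
    rw [LinearMap.ker_eq_bot']
    intro m hm
    funext i
    exact Fintype.linearIndependent_iff.1 hv' m (by simpa [T, Fintype.linearCombination_apply]
      using hm) i
  obtain ⟨g, hg⟩ := LinearMap.exists_leftInverse_of_injective T hT
  refine ⟨LinearMap.toMatrix' g, Matrix.of fun i j => w j i, ?_⟩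
  have hgv : ∀ j, g (v j : Fin n → ℝ) = Pi.single j 1 := by
    intro j
    have h1 : T (Pi.single j 1) = (v j : Fin n → ℝ) := by
      simp [T, Fintype.linearCombination_apply, Pi.single_apply]
    rw [← h1]
    exact LinearMap.congr_fun hg (Pi.single j 1)
  ext i j
  have h2 : (LinearMap.toMatrix' g * Q * Matrix.of fun i j => w j i) i j =
      (LinearMap.toMatrix' g).mulVec (Q.mulVec (w j)) i := by
    rw [Matrix.mulVec_mulVec]
    rfl
  rw [h2]
  have h3 : Q.mulVec (w j) = (v j : Fin n → ℝ) := hw j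
  rw [h3]
  have h4 : (LinearMap.toMatrix' g).mulVec (v j : Fin n → ℝ) = g (v j : Fin n → ℝ) := by
    rw [LinearMap.toMatrix'_mulVec]
  rw [h4, hgv, Matrix.one_apply]
  simp only [Pi.single_apply]

/-- the smooth function which is the linear function `∑ c_i z_i` in coordinates -/
def lin {n : ℕ} {M : Type} (y : Fin n → M → ℝ) (c : Fin n → ℝ) (x : M) : ℝ :=
  ∑ i, c i * y i x

theorem lin_sm {n : ℕ} {M : Type} [TopologicalSpace M] [ChartedSpace (V n) M]
    (y : Fin n → M → ℝ) (hy : ∀ i, Sm n (y i)) (c : Fin n → ℝ) : Sm n (lin y c) := by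
  have h1 : ContMDiff 𝓘(ℝ, V n) 𝓘(ℝ, V n) ∞ fun x i => y i x := contMDiff_pi_space.2 hy
  have h2 : ContDiff ℝ ∞ fun z : V n => ∑ i, c i * z i := by fun_prop
  exact h2.contMDiff.comp h1

theorem lin_pd {n : ℕ} {M : Type} [TopologicalSpace M] [ChartedSpace (V n) M]
    {P : Poisson n M} {e : OpenPartialHomeomorph M (V n)} {y : Fin n → M → ℝ}
    {Q : V n → Matrix (Fin n) (Fin n) ℝ} (hC : Coord P e y Q) (c : Fin n → ℝ) (x : M)
    (hx : x ∈ e.source) (i : Fin n) : pd i (fun z => lin y c (e.symm z)) (e x) = c i := by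
  classical
  have h1 : (fun z => lin y c (e.symm z)) =ᶠ[𝓝 (e x)] fun z : V n => ∑ i, c i * z i := by
    filter_upwards [e.open_target.mem_nhds (e.map_source hx)] with z hz
    unfold lin
    refine Finset.sum_congr rfl fun j _ => ?_
    rw [hC.ye _ (e.map_target hz), e.right_inv hz]
  unfold pd
  rw [h1.fderiv_eq]
  let L : V n →L[ℝ] ℝ := ∑ i, c i • ContinuousLinearMap.proj (R := ℝ) (φ := fun _ => ℝ) i
  have h2 : (fun z : V n => ∑ i, c i * z i) = L := by
    funext z
    simp [L]
  rw [h2, L.fderiv]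
  simp [L, Pi.single_apply]

theorem form_mul {n r : ℕ} {M : Type} [TopologicalSpace M] [ChartedSpace (V n) M]
    {P : Poisson n M} {e : OpenPartialHomeomorph M (V n)} {y : Fin n → M → ℝ}
    {Q : V n → Matrix (Fin n) (Fin n) ℝ} (hC : Coord P e y Q) (f g : Fin r → M → ℝ)
    (hf : ∀ i, Sm n (f i)) (hg : ∀ i, Sm n (g i)) (x : M) (hx : x ∈ e.source) :
    (Matrix.of fun a b => P.br (f a) (g b) x) =
      (Matrix.of fun a i => pd i (fun z => f a (e.symm z)) (e x)) * Q (e x) *
        (Matrix.of fun j b => pd j (fun z => g b (e.symm z)) (e x)) := by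
  ext a b
  rw [Matrix.mul_assoc, Matrix.mul_apply]
  simp only [Matrix.of_apply, Matrix.mul_apply]
  rw [hC.form _ _ (hf a) (hg b) x hx]
  refine Finset.sum_congr rfl fun i _ => ?_
  rw [Finset.mul_sum]
  refine Finset.sum_congr rfl fun j _ => ?_
  ring

theorem t_CR : S_CR := by
  intro n M _ _ _ _ P e y Q hC r x hx
  constructor
  · rintro ⟨f, g, hf, hg, hdet⟩
    rw [form_mul hC f g hf hg x hx] at hdet
    set F : Matrix (Fin r) (Fin n) ℝ := Matrix.of fun a i => pd i (fun z => f a (e.symm z)) (e x)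
    set G : Matrix (Fin n) (Fin r) ℝ := Matrix.of fun j b => pd j (fun z => g b (e.symm z)) (e x)
    have h1 : (F * Q (e x) * G).rank = r := by
      have := Matrix.rank_of_isUnit (F * Q (e x) * G)
        ((Matrix.isUnit_iff_isUnit_det _).2 (isUnit_iff_ne_zero.2 hdet))
      simpa using this
    calc r = (F * Q (e x) * G).rank := h1.symm
      _ ≤ (F * Q (e x)).rank := Matrix.rank_mul_le_left _ _
      _ ≤ (Q (e x)).rank := Matrix.rank_mul_le_right _ _
  · intro hr
    obtain ⟨F, B, hFB⟩ := exists_minor (Q (e x)) hr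
    refine ⟨fun a => lin y (F a), fun b => lin y fun j => B j b, fun a => lin_sm y hC.ysm _,
      fun b => lin_sm y hC.ysm _, ?_⟩
    have e0 := form_mul hC (fun a => lin y (F a)) (fun b => lin y fun j => B j b)
      (fun a => lin_sm y hC.ysm _) (fun b => lin_sm y hC.ysm _) x hx
    have e1 : (Matrix.of fun a i => pd i (fun z => lin y (F a) (e.symm z)) (e x)) = F := by
      ext a i
      exact lin_pd hC (F a) x hx i
    have e2 : (Matrix.of fun j b => pd j (fun z => lin y (fun j => B j b) (e.symm z)) (e x)) =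
        B := by
      ext j b
      exact lin_pd hC (fun j => B j b) x hx j
    rw [e1, e2, hFB] at e0
    have e3 : (Matrix.of fun i j => P.br ((fun a => lin y (F a)) i)
        ((fun b => lin y fun j => B j b) j) x).det = 1 := by
      rw [← Matrix.det_one (n := Fin r) (R := ℝ), ← e0]
    exact fun h0 => one_ne_zero (e3.symm.trans h0)

theorem t_FIN (h1 : S_DER) (h2 : S_CR) : S_FIN := by
  intro n M _ _ _ _ P p
  obtain ⟨e, y, Q, hp, hC⟩ := h1 n M P p
  refine ⟨(Q (e p)).rank, (h2 n M P e y Q hC _ p hp).2 le_rfl, fun h => ?_⟩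
  have := (h2 n M P e y Q hC _ p hp).1 h
  omega

end Pool.Agent.R235.PH.PCR
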