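import Pool.Agent.R235.PH.Stm

/-! Project PH (helper235), piece CT by helper780: continuity for the leaf topologies. -/

set_option autoImplicit false

open Set Filter Topology
open scoped ContDiff Manifold

namespace Pool.Agent.R235.PH.PCT

open Pool.Agent.R235.PH

lemma conv_pt {M : Type} [TopologicalSpace M] {φ : ℕ → M ≃ₜ M} {φ0 : M ≃ₜ M} (h : Conv φ φ0) (z : M) :
    Tendsto (fun k => φ k z) atTop (𝓝 (φ0 z)) := by
  rw [tendsto_nhds]
  intro s hs hz
  have h1 := h {z} s isCompact_singleton hs (by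
    intro y hy
    rw [mem_singleton_iff] at hy
    rw [hy]; exact hz)
  filter_upwards [h1] with k hk
  exact hk (mem_singleton z)

theorem t_CT (h1 : S_LL) (h2 : S_FIN) (h3 : S_CJ) (h4 : S_RK) (h5 : S_AR) : S_CT := by
  intro n M _ _ _ _ P φ φ0 hPD hconv x U hU hxU
  obtain ⟨hR1, hR2, hR3, hR4⟩ := h4 n M P
  have hcs := h5 n M φ φ0 hconv
  have hrank : ∀ r, RkGe P r (φ0 x) ↔ RkGe P r x := by
    intro r
    constructor
    · intro h
      obtain ⟨k, hk⟩ := (hR3 r (fun k => φ k x) (φ0 x) (conv_pt hconv x) h).exists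
      exact (hR2 (φ k) (hPD k) r x).mp hk
    · intro h
      have h6 : Tendsto (fun k => (φ k).symm (φ0 x)) atTop (𝓝 x) := by
        have h7 := conv_pt hcs (φ0 x)
        rw [Homeomorph.symm_apply_apply] at h7
        exact h7
      obtain ⟨k, hk⟩ := (hR3 r (fun k => (φ k).symm (φ0 x)) x h6 h).exists
      have h8 := (hR2 (φ k) (hPD k) r ((φ k).symm (φ0 x))).mpr hk
      rw [Homeomorph.apply_symm_apply] at h8
      exact h8
  obtain ⟨r, hr⟩ := h2 n M P (φ0 x)
  have hrk : ∀ k, RankEq P r (φ k x) := by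
    intro k
    constructor
    · rw [hR2 (φ k) (hPD k), ← hrank]
      exact hr.1
    · rw [hR2 (φ k) (hPD k), ← hrank]
      exact hr.2
  obtain ⟨W, hW, hpW, hWU, hLL⟩ := h1 n M P (φ0 x) r U hr hU hxU
  have : LocallyCompactSpace M := ChartedSpace.locallyCompactSpace (V n) M
  obtain ⟨K, hK, hxK, hKW⟩ := exists_compact_subset (hW.preimage φ0.continuous) (x := x) hpW
  obtain ⟨k0, hk0⟩ := eventually_atTop.mp (hconv K W hK hW hKW)
  refine ⟨interior K, isOpen_interior, hxK, ?_⟩
  intro y hy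
  have hy' : Relation.ReflTransGen (HP P (interior K)) x y := hy
  have hyK : y ∈ interior K := by
    rcases hy'.cases_tail with rfl | ⟨c, _, hc⟩
    · exact hxK
    · exact (hR4 _ _ _ hc).2.2
  apply hLL (fun k => φ (k + k0) x) (fun k => φ (k + k0) y) (φ0 y)
  · exact (tendsto_add_atTop_iff_nat (f := fun k => φ k x) k0).2 (conv_pt hconv x)
  · exact (tendsto_add_atTop_iff_nat (f := fun k => φ k y) k0).2 (conv_pt hconv y)
  · exact hKW (interior_subset hyK)
  · intro k
    exact hk0 (k + k0) (Nat.le_add_left _ _) (interior_subset hxK)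
  · intro k
    exact hrk (k + k0)
  · intro k
    refine Relation.ReflTransGen.lift (φ (k + k0)) ?_ _ _ hy'
    intro a b hab
    refine h3 n M P (φ (k + k0)) (interior K) W (hPD _) ?_ a b hab
    exact (hk0 (k + k0) (Nat.le_add_left _ _)).mono_left interior_subset

end Pool.Agent.R235.PH.PCT
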