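import Pool.Agent.R235.PH.Stm
import Pool.Agent.H631R3.PI

/-! Project PH, piece DER: the Poisson bracket in local coordinates. -/

set_option autoImplicit false

open Set Filter Topology MeasureTheory
open scoped ContDiff Manifold

namespace Pool.Agent.R235.PH.PDER

lemma lin_pi {n : ℕ} (L : V n →L[ℝ] ℝ) (v : V n) :
    L v = ∑ i, v i * L (Pi.single i 1) := by
  have h : v = ∑ i, v i • (Pi.single i (1 : ℝ) : V n) := by
    ext j
    simp [Finset.sum_apply, Pi.single_apply]
  conv_lhs => rw [h]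
  simp [map_sum]

/-- Hadamard's lemma -/
lemma hadamard {n : ℕ} (F : V n → ℝ) (hF : ContDiff ℝ ∞ F) (z0 : V n) :
    ∃ G : Fin n → V n → ℝ, (∀ i, ContDiff ℝ ∞ (G i)) ∧ (∀ i, G i z0 = pd i F z0) ∧
      ∀ z, F z = F z0 + ∑ i, (z i - z0 i) * G i z := by
  have h2 : ContDiff ℝ ∞ (fderiv ℝ F) := hF.fderiv_right (by simp)
  have hcont : Continuous (fderiv ℝ F) := h2.continuous
  refine ⟨fun i z => ∫ s in Icc (0:ℝ) 1, fderiv ℝ F (z0 + s • (z - z0)) (Pi.single i 1),
    ?_, ?_, ?_⟩
  · intro i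
    have h1 : ContDiff ℝ ∞ (fun q : ℝ × V n =>
        fderiv ℝ F (z0 + q.1 • (q.2 - z0)) (Pi.single i 1)) := by
      refine ContDiff.clm_apply (h2.comp ?_) contDiff_const
      exact contDiff_const.add (contDiff_fst.smul (contDiff_snd.sub contDiff_const))
    have h3 := Pool.Agent.H631R3.contDiffOn_PI (μ := (volume : Measure ℝ)) (K := Icc (0:ℝ) 1)
      isCompact_Icc (W := (univ : Set (ℝ × V n))) isOpen_univ (U := (univ : Set (V n)))
      isOpen_univ (subset_univ _) h1.contDiffOn
    rwa [contDiffOn_univ] at h3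
  · intro i
    simp [pd]
  · intro z
    have hd : ∀ s ∈ uIcc (0:ℝ) 1, HasDerivAt (fun s : ℝ => F (z0 + s • (z - z0)))
        (fderiv ℝ F (z0 + s • (z - z0)) (z - z0)) s := by
      intro s _
      have hF' : HasFDerivAt F (fderiv ℝ F (z0 + s • (z - z0))) (z0 + s • (z - z0)) :=
        ((hF.differentiable (by simp)) _).hasFDerivAt
      have hl : HasDerivAt (fun s : ℝ => z0 + s • (z - z0)) (z - z0) s := by
        have := ((hasDerivAt_id s).smul_const (z - z0)).const_add z0
        simpa using this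
      exact hF'.comp_hasDerivAt s hl
    have hci : ∀ v : V n, Continuous (fun s : ℝ => fderiv ℝ F (z0 + s • (z - z0)) v) := by
      intro v
      exact (hcont.comp (by fun_prop)).clm_apply continuous_const
    have hint := intervalIntegral.integral_eq_sub_of_hasDerivAt hd
      ((hci (z - z0)).intervalIntegrable 0 1)
    simp only [one_smul, zero_smul, add_zero, add_sub_cancel] at hint
    have h4 : (∫ s in (0:ℝ)..1, fderiv ℝ F (z0 + s • (z - z0)) (z - z0)) =
        ∑ i, (z i - z0 i) * ∫ s in Icc (0:ℝ) 1,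
          fderiv ℝ F (z0 + s • (z - z0)) (Pi.single i 1) := by
      have h5 : ∀ s : ℝ, fderiv ℝ F (z0 + s • (z - z0)) (z - z0) =
          ∑ i, (z i - z0 i) * fderiv ℝ F (z0 + s • (z - z0)) (Pi.single i 1) := by
        intro s
        rw [lin_pi]
        rfl
      simp_rw [h5]
      rw [intervalIntegral.integral_finset_sum]
      · refine Finset.sum_congr rfl fun i _ => ?_
        rw [intervalIntegral.integral_const_mul, intervalIntegral.integral_of_le zero_le_one,
          integral_Icc_eq_integral_Ioc]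
      · intro i _
        exact ((continuous_const.mul (hci _))).intervalIntegrable 0 1
    rw [← h4, hint]
    ring

section

variable {n : ℕ} {M : Type} [TopologicalSpace M] [ChartedSpace (V n) M]

lemma sm_const (c : ℝ) : Sm n (fun _ : M => c) := contMDiff_const

lemma sm_add {f g : M → ℝ} (hf : Sm n f) (hg : Sm n g) : Sm n (f + g) := ContMDiff.add hf hg

lemma sm_mul {f g : M → ℝ} (hf : Sm n f) (hg : Sm n g) : Sm n (f * g) := ContMDiff.mul hf hg

lemma sm_smul (c : ℝ) {f : M → ℝ} (hf : Sm n f) : Sm n (c • f) := by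
  have : c • f = (fun _ => c) * f := by ext; simp
  rw [this]
  exact sm_mul (sm_const c) hf

lemma sm_sum {ι : Type} (s : Finset ι) {f : ι → M → ℝ} (hf : ∀ i ∈ s, Sm n (f i)) :
    Sm n (∑ i ∈ s, f i) := by
  classical
  induction s using Finset.induction_on with
  | empty => rw [Finset.sum_empty]; exact sm_const (n := n) (M := M) 0
  | insert a s ha ih =>
    rw [Finset.sum_insert ha]
    exact sm_add (hf a (Finset.mem_insert_self _ _))
      (ih fun i hi => hf i (Finset.mem_insert_of_mem hi))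

/-- derivation at a point -/
structure PtDer (n : ℕ) {M : Type} [TopologicalSpace M] [ChartedSpace (V n) M]
    (D : (M → ℝ) → ℝ) (x : M) : Prop where
  add : ∀ f g, Sm n f → Sm n g → D (f + g) = D f + D g
  smul : ∀ (c : ℝ) (f), Sm n f → D (c • f) = c * D f
  leib : ∀ f g, Sm n f → Sm n g → D (f * g) = f x * D g + g x * D f

variable {D : (M → ℝ) → ℝ} {x : M}

lemma PtDer.zero (hD : PtDer n D x) : D 0 = 0 := by
  have := hD.smul 0 (fun _ => 0) (sm_const 0)
  rw [zero_smul, zero_mul] at this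
  exact this

lemma PtDer.const (hD : PtDer n D x) (c : ℝ) : D (fun _ => c) = 0 := by
  have h1 := hD.leib (fun _ => 1) (fun _ => 1) (sm_const 1) (sm_const 1)
  have h2 : ((fun _ => 1) * (fun _ => 1) : M → ℝ) = fun _ => 1 := by ext; simp
  rw [h2] at h1
  have h3 : D (fun _ => 1) = 0 := by linarith
  have h4 := hD.smul c (fun _ => 1) (sm_const 1)
  have h5 : (c • (fun _ => 1) : M → ℝ) = fun _ => c := by ext; simp
  rw [h5, h3] at h4
  rw [h4, mul_zero]

lemma PtDer.sum (hD : PtDer n D x) {ι : Type} (s : Finset ι) {f : ι → M → ℝ}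
    (hf : ∀ i, Sm n (f i)) : D (∑ i ∈ s, f i) = ∑ i ∈ s, D (f i) := by
  classical
  induction s using Finset.induction_on with
  | empty => simpa using hD.zero
  | insert a s ha ih =>
    rw [Finset.sum_insert ha, Finset.sum_insert ha, hD.add _ _ (hf a)
      (sm_sum s fun i _ => hf i), ih]

lemma PtDer.loc [T2Space M] [IsManifold 𝓘(ℝ, V n) ∞ M] (hD : PtDer n D x) {f : M → ℝ}
    (hf : Sm n f) (h : ∀ᶠ m in 𝓝 x, f m = 0) : D f = 0 := by
  obtain ⟨χ, -, hχ⟩ := (SmoothBumpFunction.nhds_basis_tsupport (I := 𝓘(ℝ, V n)) x).mem_iff.mp h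
  have hχs : Sm n (fun m => χ m) := χ.contMDiff
  have h1 := hD.leib f (fun m => χ m) hf hχs
  have h2 : (f * (fun m => χ m) : M → ℝ) = 0 := by
    ext m
    by_cases hm : m ∈ tsupport χ
    · have : f m = 0 := hχ hm
      simp [this]
    · have : χ m = 0 := image_eq_zero_of_notMem_tsupport hm
      simp [this]
  rw [h2, hD.zero, χ.eq_one, h.self_of_nhds] at h1
  linarith

lemma PtDer.congr [T2Space M] [IsManifold 𝓘(ℝ, V n) ∞ M] (hD : PtDer n D x) {f g : M → ℝ}
    (hf : Sm n f) (hg : Sm n g) (h : ∀ᶠ m in 𝓝 x, f m = g m) : D f = D g := by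
  have h1 := hD.loc (sm_add hf (sm_smul (-1) hg)) (by
    filter_upwards [h] with m hm
    simp [hm])
  rw [hD.add _ _ hf (sm_smul (-1) hg), hD.smul _ _ hg] at h1
  linarith

lemma lift_sm [T2Space M] [IsManifold 𝓘(ℝ, V n) ∞ M] {p : M}
    (ρ : SmoothBumpFunction 𝓘(ℝ, V n) p) {F : V n → ℝ} (hF : ContDiff ℝ ∞ F) :
    Sm n (fun m => ρ m * F (chartAt (V n) p m)) := by
  have h1 : ContMDiffOn 𝓘(ℝ, V n) 𝓘(ℝ, ℝ) ∞ (fun m => F (chartAt (V n) p m))
      (chartAt (V n) p).source :=
    hF.contMDiff.comp_contMDiffOn contMDiffOn_chart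
  exact ρ.contMDiff_smul h1

lemma chart_sm [IsManifold 𝓘(ℝ, V n) ∞ M] (p : M) {f : M → ℝ} (hf : Sm n f) :
    ContDiffOn ℝ ∞ (fun z => f ((chartAt (V n) p).symm z)) (chartAt (V n) p).target := by
  rw [← contMDiffOn_iff_contDiffOn]
  exact ContMDiff.comp_contMDiffOn hf contMDiffOn_chart_symm

lemma der_form [T2Space M] [IsManifold 𝓘(ℝ, V n) ∞ M] {p : M}
    (ρ : SmoothBumpFunction 𝓘(ℝ, V n) p) (hD : PtDer n D x)
    (hx : x ∈ (chartAt (V n) p).source) (hρ : ∀ᶠ m in 𝓝 x, ρ m = 1) {f : M → ℝ}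
    (hf : Sm n f) :
    D f = ∑ i, pd i (fun z => f ((chartAt (V n) p).symm z)) (chartAt (V n) p x) *
      D (fun m => ρ m * chartAt (V n) p m i) := by
  set e0 := chartAt (V n) p with he0
  set z0 := e0 x with hz0
  have hz0t : z0 ∈ e0.target := e0.map_source hx
  have hF := chart_sm (n := n) p hf
  rw [← he0] at hF
  set F : V n → ℝ := fun z => f (e0.symm z) with hFdef
  obtain ⟨ε, hε, hεt⟩ := Metric.nhds_basis_closedBall.mem_iff.1 (e0.open_target.mem_nhds hz0t)
  let b : ContDiffBump z0 := ⟨ε / 2, ε, by linarith, by linarith⟩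
  have hbF : ContDiff ℝ ∞ (fun z => b z * F z) := by
    rw [contDiff_iff_contDiffAt]
    intro z
    by_cases hz : z ∈ e0.target
    · exact b.contDiff.contDiffAt.mul (hF.contDiffAt (e0.open_target.mem_nhds hz))
    · have hz' : z ∉ tsupport b := by
        rw [b.tsupport_eq]
        exact fun hh => hz (hεt hh)
      have hev : ∀ᶠ w in 𝓝 z, (fun z => b z * F z) w = (fun _ => (0:ℝ)) w := by
        filter_upwards [(isClosed_tsupport b).isOpen_compl.mem_nhds hz'] with w hw
        simp only [image_eq_zero_of_notMem_tsupport hw, zero_mul]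
      exact contDiffAt_const.congr_of_eventuallyEq hev
  obtain ⟨G, hG1, hG2, hG3⟩ := hadamard _ hbF z0
  have hcx : Tendsto e0 (𝓝 x) (𝓝 z0) := e0.continuousAt hx
  have hsrc : ∀ᶠ m in 𝓝 x, m ∈ e0.source := e0.open_source.mem_nhds hx
  have hb1 : ∀ᶠ m in 𝓝 x, b (e0 m) = 1 := hcx.eventually b.eventuallyEq_one
  have hy : ∀ i, Sm n (fun m => ρ m * e0 m i) := fun i =>
    lift_sm ρ (F := fun z => z i) (contDiff_apply ℝ ℝ i)
  have hg : ∀ i, Sm n (fun m => ρ m * G i (e0 m)) := fun i => lift_sm ρ (hG1 i)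
  let R : M → ℝ := (fun _ => b z0 * F z0) + ∑ i,
    ((fun m => ρ m * e0 m i) + (fun _ => - z0 i)) * (fun m => ρ m * G i (e0 m))
  have hRi : ∀ i, Sm n (((fun m => ρ m * e0 m i) + (fun _ => - z0 i)) *
      (fun m => ρ m * G i (e0 m))) :=
    fun i => sm_mul (sm_add (hy i) (sm_const _)) (hg i)
  have hR : Sm n R := sm_add (sm_const _) (sm_sum _ fun i _ => hRi i)
  have hfR : ∀ᶠ m in 𝓝 x, f m = R m := by
    filter_upwards [hρ, hsrc, hb1] with m h1 h2 h3
    have h4 : R m = b z0 * F z0 + ∑ i, (ρ m * e0 m i + - z0 i) * (ρ m * G i (e0 m)) := by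
      simp only [R, Pi.add_apply, Finset.sum_apply, Pi.mul_apply]
    have h5 := hG3 (e0 m)
    have h6 : F (e0 m) = f m := by
      show f (e0.symm (e0 m)) = f m
      rw [e0.left_inv h2]
    rw [h4]
    simp only [h1, one_mul]
    simp only [h3, one_mul, h6] at h5
    rw [h5]
    rfl
  rw [hD.congr hf hR hfR]
  have hDR : D R = ∑ i, G i z0 * D (fun m => ρ m * e0 m i) := by
    show D ((fun _ => b z0 * F z0) + ∑ i,
      ((fun m => ρ m * e0 m i) + (fun _ => - z0 i)) * (fun m => ρ m * G i (e0 m))) = _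
    rw [hD.add _ _ (sm_const _) (sm_sum _ fun i _ => hRi i), hD.const, zero_add,
      hD.sum _ hRi]
    refine Finset.sum_congr rfl fun i _ => ?_
    rw [hD.leib _ _ (sm_add (hy i) (sm_const _)) (hg i), hD.add _ _ (hy i) (sm_const _),
      hD.const, add_zero]
    simp only [Pi.add_apply, hρ.self_of_nhds, one_mul]
    rw [← hz0]
    ring
  rw [hDR]
  refine Finset.sum_congr rfl fun i _ => ?_
  rw [hG2 i]
  congr 1
  unfold pd
  have hev : (fun z => b z * F z) =ᶠ[𝓝 z0] F := by
    filter_upwards [b.eventuallyEq_one] with z hz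
    simp only [Pi.one_apply] at hz
    rw [hz, one_mul]
  rw [hev.fderiv_eq]

end

theorem t_DER : S_DER := by
  intro n M _ _ _ _ P p
  set e0 := chartAt (V n) p with he0
  obtain ⟨ρ⟩ : Nonempty (SmoothBumpFunction 𝓘(ℝ, V n) p) := inferInstance
  let y : Fin n → M → ℝ := fun i m => ρ m * e0 m i
  let O : Set M := e0.source ∩ e0 ⁻¹' (Metric.ball (e0 p) ρ.rIn)
  have hO : IsOpen O := e0.isOpen_inter_preimage Metric.isOpen_ball
  have hρO : ∀ m ∈ O, ρ m = 1 := by
    intro m hm
    refine ρ.one_of_dist_le hm.1 ?_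
    have := hm.2
    rw [mem_preimage, Metric.mem_ball] at this
    simpa using this.le
  have hρO' : ∀ m ∈ O, ∀ᶠ m' in 𝓝 m, ρ m' = 1 := by
    intro m hm
    filter_upwards [hO.mem_nhds hm] with m' hm' using hρO m' hm'
  let e := e0.restrOpen O hO
  have hsrc : ∀ m, m ∈ e.source ↔ m ∈ O := by
    intro m
    simp only [e, OpenPartialHomeomorph.restrOpen_source]
    exact ⟨fun h => h.2, fun h => ⟨h.1, h⟩⟩
  have htgt : ∀ z ∈ e.target, z ∈ e0.target := by
    intro z hz
    have := e.map_target hz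
    rw [hsrc] at this
    have h2 := e.right_inv hz
    have h3 : e0 (e.symm z) = z := h2
    rw [← h3]
    exact e0.map_source this.1
  have hy : ∀ i, Sm n (y i) := fun i =>
    lift_sm ρ (F := fun z => z i) (contDiff_apply ℝ ℝ i)
  refine ⟨e, y, fun z => Matrix.of fun i j => P.br (y i) (y j) (e.symm z), ?_, ?_⟩
  · rw [hsrc]
    refine ⟨mem_chart_source _ p, ?_⟩
    rw [mem_preimage]
    exact Metric.mem_ball_self ρ.rIn_pos
  refine ⟨hy, ?_, ?_, ?_, ?_⟩
  · intro x hx i
    have := hρO x ((hsrc x).1 hx)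
    show ρ x * e0 x i = e0 x i
    rw [this, one_mul]
  · intro z _ i j
    rfl
  · intro f hf
    exact (chart_sm p hf).mono htgt
  · intro f g hf hg x hx
    have hxO := (hsrc x).1 hx
    have hder : ∀ g, Sm n g → PtDer n (fun f => P.br f g x) x := by
      intro g hg
      refine ⟨?_, ?_, ?_⟩
      · intro f1 f2 h1 h2
        simp only [P.add f1 f2 g h1 h2 hg, Pi.add_apply]
      · intro c f1 h1
        simp only [P.smul c f1 g h1 hg, Pi.smul_apply, smul_eq_mul]
      · intro f1 f2 h1 h2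
        simp only [P.leib f1 f2 g h1 h2 hg, Pi.add_apply, Pi.mul_apply]
    have key : ∀ f g, Sm n f → Sm n g → P.br f g x =
        ∑ i, pd i (fun z => f (e0.symm z)) (e0 x) * P.br (y i) g x := by
      intro f g hf hg
      exact der_form ρ (hder g hg) hxO.1 (hρO' x hxO) hf
    rw [key f g hf hg]
    refine Finset.sum_congr rfl fun i _ => ?_
    have h1 : P.br (y i) g x = ∑ j, pd j (fun z => g (e0.symm z)) (e0 x) * P.br (y i) (y j) x := by
      have h2 := congrFun (P.anti (y i) g (hy i) hg) x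
      rw [h2, Pi.neg_apply, key g (y i) hg (hy i), ← Finset.sum_neg_distrib]
      refine Finset.sum_congr rfl fun j _ => ?_
      have h3 := congrFun (P.anti (y i) (y j) (hy i) (hy j)) x
      rw [h3, Pi.neg_apply]
      ring
    rw [h1, Finset.mul_sum]
    refine Finset.sum_congr rfl fun j _ => ?_
    have h4 : e.symm (e x) = x := e.left_inv hx
    show pd i (fun z => f (e0.symm z)) (e0 x) * (pd j (fun z => g (e0.symm z)) (e0 x) *
      P.br (y i) (y j) x) = pd i (fun z => f (e0.symm z)) (e0 x) *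
      pd j (fun z => g (e0.symm z)) (e0 x) * P.br (y i) (y j) (e.symm (e x))
    rw [h4]
    ring

end Pool.Agent.R235.PH.PDER
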