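import Pool.Agent.R235.PH.Stm

set_option autoImplicit false

open Set Filter Topology
open scoped ContDiff Manifold

namespace Pool.Agent.R235.PH.PELL

variable {n r : ℕ}

theorem epath_mono {Q : V n → Matrix (Fin n) (Fin n) ℝ} {U U' : Set (V n)} (h : U ⊆ U')
    {a b : V n} (hp : EPath Q U a b) : EPath Q U' a b := by
  obtain ⟨c, ζ, h1, h2, h3, h4, h5⟩ := hp
  exact ⟨c, ζ, h1, fun t ht => h (h2 t ht), h3, h4, h5⟩

/-- reparametrisation -/
theorem deriv_comp {c : ℝ → V n} {v : V n} {t k m : ℝ} {s : Set ℝ}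
    (hs : MapsTo (fun x : ℝ => k * x + m) s (Icc (0 : ℝ) 1))
    (h : HasDerivWithinAt c v (Icc 0 1) (k * t + m)) :
    HasDerivWithinAt (fun x => c (k * x + m)) (k • v) s t := by
  have h1 : HasDerivWithinAt (fun x : ℝ => k * x + m) k s t := by
    have := ((hasDerivAt_id t).const_mul k).add_const m
    simpa using this.hasDerivWithinAt
  exact HasDerivWithinAt.scomp (h := fun x : ℝ => k * x + m) t h h1 hs

theorem epath_rev {Q : V n → Matrix (Fin n) (Fin n) ℝ} {U : Set (V n)}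
    {a b : V n} (hp : EPath Q U a b) : EPath Q U b a := by
  obtain ⟨c, ζ, h1, h2, h3, h4, h5⟩ := hp
  have hm : MapsTo (fun x : ℝ => (-1) * x + 1) (Icc (0 : ℝ) 1) (Icc (0 : ℝ) 1) := by
    intro x hx
    exact ⟨by simp only; linarith [hx.2], by simp only; linarith [hx.1]⟩
  refine ⟨fun t => c ((-1) * t + 1), fun t => (-1 : ℝ) • ζ ((-1) * t + 1), ?_,
    fun t ht => h2 _ (hm ht), by simp [h4], by simp [h3], fun t ht => ?_⟩
  · have h7 : Continuous fun t : ℝ => ζ ((-1) * t + 1) :=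
      h1.comp ((continuous_const.mul continuous_id).add continuous_const)
    exact h7.const_smul (-1 : ℝ)
  · have h6 := deriv_comp (k := -1) (m := 1) (t := t) hm (h5 _ (hm ht))
    rw [Matrix.mulVec_smul]
    exact h6

theorem epath_sub {Q : V n → Matrix (Fin n) (Fin n) ℝ} {U : Set (V n)} {c ζ : ℝ → V n}
    (h1 : Continuous ζ) (h2 : ∀ t ∈ Icc (0 : ℝ) 1, c t ∈ U)
    (h5 : ∀ t ∈ Icc (0 : ℝ) 1, HasDerivWithinAt c ((Q (c t)).mulVec (ζ t)) (Icc 0 1) t)
    {s : ℝ} (hs : s ∈ Icc (0 : ℝ) 1) : EPath Q U (c 0) (c s) := by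
  have hm : MapsTo (fun x : ℝ => s * x + 0) (Icc (0 : ℝ) 1) (Icc (0 : ℝ) 1) := by
    intro x hx
    refine ⟨?_, ?_⟩
    · simp only [add_zero]; exact mul_nonneg hs.1 hx.1
    · simp only [add_zero]
      nlinarith [hs.1, hs.2, hx.1, hx.2]
  refine ⟨fun t => c (s * t + 0), fun t => s • ζ (s * t + 0), ?_,
    fun t ht => h2 _ (hm ht), by simp, by simp, fun t ht => ?_⟩
  · have h7 : Continuous fun t : ℝ => ζ (s * t + 0) :=
      h1.comp ((continuous_const.mul continuous_id).add continuous_const)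
    exact h7.const_smul s
  · have h6 := deriv_comp (k := s) (m := 0) (t := t) hm (h5 _ (hm ht))
    rw [Matrix.mulVec_smul]
    exact h6

theorem epath_flow {Q : V n → Matrix (Fin n) (Fin n) ℝ} {W' : Set (V n)}
    {A : V n →L[ℝ] V r} {L ζ : V n → V r →L[ℝ] V n} {Z : V n → V r → ℝ → V n}
    (hL : Lift r Q W' A L ζ) (hZ : Flow r L Z) (z : V n) (b : V r)
    (hW : ∀ s ∈ Icc (0 : ℝ) 1, Z z b s ∈ W') {s : ℝ} (hs : s ∈ Icc (0 : ℝ) 1) :
    EPath Q W' z (Z z b s) := by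
  have hpc : Continuous fun t : ℝ => ((projIcc (0 : ℝ) 1 zero_le_one t : Icc (0 : ℝ) 1) : ℝ) :=
    continuous_subtype_val.comp continuous_projIcc
  have hZc : Continuous (Z z b) :=
    continuous_iff_continuousAt.mpr fun t => (hZ.der z b t).continuousAt
  have h := epath_sub (Q := Q) (U := W') (c := Z z b)
    (ζ := fun t => ζ (Z z b (projIcc (0 : ℝ) 1 zero_le_one t)) b) ?_ hW ?_ hs
  · rw [hZ.init] at h; exact h
  · have h1 : Continuous fun t : ℝ => ζ (Z z b (projIcc (0 : ℝ) 1 zero_le_one t)) :=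
      hL.cont.comp_continuous (hZc.comp hpc) fun t => hW _ (projIcc (0 : ℝ) 1 zero_le_one t).2
    exact h1.clm_apply continuous_const
  · intro t ht
    rw [projIcc_of_mem zero_le_one ht]
    have h2 := (hZ.der z b t).hasDerivWithinAt (s := Icc 0 1)
    rw [hL.adm _ (hW t ht)] at h2
    exact h2

theorem flow_lip {L : V n → V r →L[ℝ] V n} {Z : V n → V r → ℝ → V n} (hZ : Flow r L Z)
    {K R C : ℝ} (hK : ∀ z, ‖L z‖ ≤ K)
    (hC : ∀ b : V r, ‖b‖ ≤ R → ∀ (z : V n) (w w' : ℝ → V n) (ε : ℝ),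
    0 ≤ ε → (∀ s ∈ Icc (0 : ℝ) 1, HasDerivAt w (w' s) s) →
    (∀ s ∈ Icc (0 : ℝ) 1, ‖w' s - L (w s) b‖ ≤ ε) →
    ∀ s ∈ Icc (0 : ℝ) 1, ‖w s - Z z b s‖ ≤ C * (‖w 0 - z‖ + ε))
    (z z' : V n) (b b' : V r) (hb' : ‖b'‖ ≤ R) {s : ℝ} (hs : s ∈ Icc (0 : ℝ) 1) :
    ‖Z z b s - Z z' b' s‖ ≤ C * (‖z - z'‖ + K * ‖b - b'‖) := by
  have hK0 : 0 ≤ K := (norm_nonneg _).trans (hK 0)
  have h := hC b' hb' z' (Z z b) (fun s => L (Z z b s) b) (K * ‖b - b'‖)
    (by positivity) (fun s _ => hZ.der z b s) (fun s _ => by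
      rw [← map_sub]
      exact ((L (Z z b s)).le_opNorm _).trans
        (mul_le_mul_of_nonneg_right (hK _) (norm_nonneg _))) s hs
  rw [hZ.init] at h
  exact h

theorem t_ELL (h1 : S_RC) (h2 : S_FLOW) (h3 : S_FR) (h4 : S_CHO) (h5 : S_INT) : S_ELL := by
  intro n Ω U Q p hE hp hU hpU
  obtain ⟨A, L, ζ, W', hpW', hW'U, hW'Ω, hL⟩ := h4 n Ω U Q p hE hp hU hpU
  obtain ⟨Z, hZ⟩ := h2 n _ L hL.smooth hL.supp
  obtain ⟨K, hK⟩ := hL.supp.exists_bound_of_continuous hL.smooth.continuous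
  have hK0 : 0 ≤ K := (norm_nonneg _).trans (hK 0)
  obtain ⟨C, hC0, hC⟩ := hZ.gron ‖A‖
  set u0 := A p with hu0
  have hlip := fun z z' b b' hb' s hs => flow_lip hZ hK hC z z' b b' hb' (s := s) hs
  have hAn : ∀ z z', ‖(u0 - A z) - (u0 - A z')‖ ≤ ‖A‖ * ‖z - z'‖ := by
    intro z z'
    have : (u0 - A z) - (u0 - A z') = A (z' - z) := by rw [map_sub]; abel
    rw [this, ← norm_sub_rev z' z]
    exact A.le_opNorm _
  have hb : ∀ z, ‖z - p‖ ≤ 1 → ‖u0 - A z‖ ≤ ‖A‖ := by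
    intro z hz
    have h := hAn z p
    rw [← hu0, sub_self, sub_zero] at h
    exact h.trans (mul_le_of_le_one_right (norm_nonneg _) hz)
  -- constant solution
  have hconst : ∀ s ∈ Icc (0 : ℝ) 1, Z p 0 s = p := by
    intro s hs
    have h := hC 0 (by simp) p (fun _ => p) (fun _ => 0) 0 le_rfl
      (fun s _ => hasDerivAt_const s p) (fun s _ => by simp) s hs
    rw [sub_self, norm_zero, add_zero, mul_zero] at h
    exact (sub_eq_zero.mp (norm_le_zero_iff.mp h)).symm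
  -- distance to p
  set D := C * (1 + K * ‖A‖) with hD
  have hD0 : 0 ≤ D := by positivity
  have hG : ∀ z z', ‖z' - p‖ ≤ 1 → ∀ s ∈ Icc (0 : ℝ) 1,
      ‖Z z (u0 - A z) s - Z z' (u0 - A z') s‖ ≤ D * ‖z - z'‖ := by
    intro z z' hz' s hs
    refine (hlip z z' _ _ (hb z' hz') s hs).trans ?_
    have h := mul_le_mul_of_nonneg_left (hAn z z') hK0
    calc C * (‖z - z'‖ + K * ‖(u0 - A z) - (u0 - A z')‖)
        ≤ C * (‖z - z'‖ + K * (‖A‖ * ‖z - z'‖)) :=
          mul_le_mul_of_nonneg_left (by linarith) hC0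
      _ = D * ‖z - z'‖ := by rw [hD]; ring
  obtain ⟨ρ, hρ0, hρ⟩ := Metric.isOpen_iff.mp hL.op p hpW'
  set δ := min 1 (min ρ (ρ / (D + 1))) with hδ
  have hδ0 : 0 < δ := by positivity
  have hδ1 : δ ≤ 1 := min_le_left _ _
  have hδ2 : δ ≤ ρ := (min_le_right _ _).trans (min_le_left _ _)
  have hδ3 : δ ≤ ρ / (D + 1) := (min_le_right _ _).trans (min_le_right _ _)
  set W := Metric.ball p δ with hW
  have hWW' : W ⊆ W' := (Metric.ball_subset_ball hδ2).trans hρ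
  have hWp : ∀ z ∈ W, ‖z - p‖ < δ := by
    intro z hz
    rw [hW, Metric.mem_ball, dist_eq_norm] at hz
    exact hz
  have hstay : ∀ z ∈ W, ∀ s ∈ Icc (0 : ℝ) 1, Z z (u0 - A z) s ∈ W' := by
    intro z hz s hs
    apply hρ
    rw [Metric.mem_ball, dist_eq_norm]
    have h := hG z p (by simp) s hs
    rw [← hu0, sub_self, hconst s hs] at h
    have hz' := hWp z hz
    have h6 : δ * (D + 1) ≤ ρ := by
      rw [← le_div_iff₀ (by positivity)]; exact hδ3
    have h7 : 0 ≤ ‖z - p‖ := norm_nonneg _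
    nlinarith
  refine ⟨W, Metric.isOpen_ball, Metric.mem_ball_self hδ0, hWW'.trans hW'U, ?_⟩
  intro a b q ha hb' hq haW hrk hch
  -- rank along the flow
  have hrkflow : ∀ z ∈ W, ∀ s ∈ Icc (0 : ℝ) 1, (Q (Z z (u0 - A z) s)).rank = (Q z).rank := by
    intro z hz s hs
    exact (h1 n Ω Q _ _ hE (epath_mono hW'Ω (epath_flow hL hZ z _ (hstay z hz) hs))).symm
  -- one curve
  have hone : ∀ x y, EPath Q W x y → (Q x).rank = (Q p).rank →
      (Q y).rank = (Q p).rank ∧ Z y (u0 - A y) 1 = Z x (u0 - A x) 1 := by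
    rintro x y hxy hx
    obtain ⟨c, ζ', g1, g2, g3, g4, g5⟩ := hxy
    have hrkc : ∀ t ∈ Icc (0 : ℝ) 1, (Q (c t)).rank = (Q p).rank := by
      intro t ht
      have h := h1 n Ω Q _ _ hE (epath_mono (hWW'.trans hW'Ω) (epath_sub g1 g2 g5 ht))
      rw [← h, g3]; exact hx
    refine ⟨by rw [← g4]; exact hrkc 1 (by simp), ?_⟩
    have h := h3 n _ L Z A u0 (W' ∩ {z | (Q z).rank = (Q p).rank}) c
      (fun t => A ((Q (c t)).mulVec (ζ' t))) hL.smooth hL.supp hZ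
      (fun z hz a => hL.sec z hz.1 a)
      (fun z hz => h5 n _ Ω W' Q A L ζ hE hW'Ω hL z hz.1 hz.2)
      (fun t ht => by
        rw [hL.char (c t) (hWW' (g2 t ht)) (hrkc t ht)]
        exact g5 t ht)
      (fun t ht s hs => ⟨hstay _ (g2 t ht) s hs, by
        have := hrkflow _ (g2 t ht) s hs
        rw [mem_setOf_eq, this]
        exact hrkc t ht⟩)
    rw [g3, g4] at h
    exact h
  have hchain : ∀ x y, Relation.ReflTransGen (EPath Q W) x y → (Q x).rank = (Q p).rank →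
      (Q y).rank = (Q p).rank ∧ Z y (u0 - A y) 1 = Z x (u0 - A x) 1 := by
    intro x y hxy hx
    induction hxy with
    | refl => exact ⟨hx, rfl⟩
    | tail _ h7 ih =>
      obtain ⟨i1, i2⟩ := ih
      obtain ⟨i3, i4⟩ := hone _ _ h7 i1
      exact ⟨i3, i4.trans i2⟩
  have h1mem : (1 : ℝ) ∈ Icc (0 : ℝ) 1 := by simp
  have hcont : ∀ (x : ℕ → V n) (y : V n), Tendsto x atTop (𝓝 y) → ‖y - p‖ ≤ 1 →
      Tendsto (fun k => Z (x k) (u0 - A (x k)) 1) atTop (𝓝 (Z y (u0 - A y) 1)) := by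
    intro x y hxy hy
    rw [tendsto_iff_norm_sub_tendsto_zero] at hxy ⊢
    have h8 : Tendsto (fun k => D * ‖x k - y‖) atTop (𝓝 0) := by
      simpa using hxy.const_mul D
    exact squeeze_zero (fun k => norm_nonneg _) (fun k => hG (x k) y hy 1 h1mem) h8
  have ha' := hcont a p ha (by simp)
  have hb'' := hcont b q hb' ((hWp q hq).le.trans hδ1)
  have heq : (fun k => Z (b k) (u0 - A (b k)) 1) = fun k => Z (a k) (u0 - A (a k)) 1 :=
    funext fun k => (hchain _ _ (hch k) (hrk k)).2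
  rw [heq] at hb''
  have hlim := tendsto_nhds_unique hb'' ha'
  rw [← hu0, sub_self, hconst 1 h1mem] at hlim
  have hfin := epath_flow hL hZ q (u0 - A q) (hstay q hq) h1mem
  rw [hlim] at hfin
  exact epath_rev (epath_mono hW'U hfin)

end Pool.Agent.R235.PH.PELL
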