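import Mathlib

/-!
# MP_5d95cf_gt (Q1): Poisson homeomorphisms map symplectic leaves homeomorphically onto
symplectic leaves

Definitions and exact statements of the pieces (proofs in `NOTES.md`).
-/

set_option autoImplicit false

open Set Filter Topology
open scoped ContDiff Manifold

namespace Pool.Agent.R235.PH

/-- coordinate space -/
abbrev V (n : ℕ) : Type := Fin n → ℝ

/-- partial derivative -/
noncomputable def pd {n : ℕ} (i : Fin n) (f : V n → ℝ) (x : V n) : ℝ :=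
  fderiv ℝ f x (Pi.single i 1)

section
variable {n : ℕ} {M : Type} [TopologicalSpace M] [ChartedSpace (V n) M]

/-- smooth real functions on `M` -/
def Sm (n : ℕ) {M : Type} [TopologicalSpace M] [ChartedSpace (V n) M] (f : M → ℝ) : Prop :=
  ContMDiff 𝓘(ℝ, V n) 𝓘(ℝ, ℝ) ∞ f

/-- A Poisson bracket on the smooth functions of the manifold `M`. -/
structure Poisson (n : ℕ) (M : Type) [TopologicalSpace M] [ChartedSpace (V n) M] where
  br : (M → ℝ) → (M → ℝ) → M → ℝ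
  smooth : ∀ f g, Sm n f → Sm n g → Sm n (br f g)
  add : ∀ f g h, Sm n f → Sm n g → Sm n h → br (f + g) h = br f h + br g h
  smul : ∀ (c : ℝ) (f g), Sm n f → Sm n g → br (c • f) g = c • br f g
  anti : ∀ f g, Sm n f → Sm n g → br f g = -br g f
  leib : ∀ f g h, Sm n f → Sm n g → Sm n h → br (f * g) h = f * br g h + g * br f h
  jac : ∀ f g h, Sm n f → Sm n g → Sm n h →
    br f (br g h) + br g (br h f) + br h (br f g) = 0

/-- Poisson diffeomorphisms. -/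
def IsPD (P : Poisson n M) (ψ : M ≃ₜ M) : Prop :=
  ContMDiff 𝓘(ℝ, V n) 𝓘(ℝ, V n) ∞ ψ ∧ ContMDiff 𝓘(ℝ, V n) 𝓘(ℝ, V n) ∞ ψ.symm ∧
    ∀ f g, Sm n f → Sm n g → P.br (f ∘ ψ) (g ∘ ψ) = P.br f g ∘ ψ

/-- Convergence in the compact-open topology. -/
def Conv {M : Type} [TopologicalSpace M] (φ : ℕ → M ≃ₜ M) (φ0 : M ≃ₜ M) : Prop :=
  ∀ K U : Set M, IsCompact K → IsOpen U → MapsTo φ0 K U → ∀ᶠ k in atTop, MapsTo (φ k) K U

/-- `a` is joined to `b` by a curve `γ : [0,1] → U` whose velocity is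
`∑ ζ_i(t) X_{h_i}(γ(t))`, a combination of Hamiltonian vector fields with continuous
coefficients (a cotangent path). -/
def HP (P : Poisson n M) (U : Set M) (a b : M) : Prop :=
  ∃ (γ : ℝ → M) (N : ℕ) (h : Fin N → M → ℝ) (ζ : Fin N → ℝ → ℝ),
    ContinuousOn γ (Icc 0 1) ∧ (∀ t ∈ Icc (0 : ℝ) 1, γ t ∈ U) ∧ γ 0 = a ∧ γ 1 = b ∧
    (∀ i, Sm n (h i)) ∧ (∀ i, Continuous (ζ i)) ∧
    ∀ f, Sm n f → ∀ t ∈ Icc (0 : ℝ) 1,
      HasDerivWithinAt (fun s => f (γ s)) (∑ i, ζ i t * P.br f (h i) (γ t)) (Icc 0 1) t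

/-- The points which can be reached from `x` inside `U`. -/
def plaque (P : Poisson n M) (U : Set M) (x : M) : Set M :=
  {y | Relation.ReflTransGen (HP P U) x y}

/-- The symplectic leaf through `x`. -/
def leaf (P : Poisson n M) (x : M) : Set M := plaque P univ x

/-- `S` is open in the leaf topology: it contains, with each point, a plaque around it. -/
def LeafOpen (P : Poisson n M) (S : Set M) : Prop :=
  ∀ x ∈ S, ∃ U : Set M, IsOpen U ∧ x ∈ U ∧ plaque P U x ⊆ S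

/-- The rank of the Poisson structure at `x` is at least `r`. -/
def RkGe (P : Poisson n M) (r : ℕ) (x : M) : Prop :=
  ∃ f g : Fin r → M → ℝ, (∀ i, Sm n (f i)) ∧ (∀ i, Sm n (g i)) ∧
    (Matrix.of fun i j => P.br (f i) (g j) x).det ≠ 0

/-- The rank of the Poisson structure at `x` is `r`. -/
def RankEq (P : Poisson n M) (r : ℕ) (x : M) : Prop := RkGe P r x ∧ ¬RkGe P (r + 1) x

end

/-! ## Coordinates -/

section
variable {n : ℕ}

/-- admissible curves in coordinates -/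
def EPath (Q : V n → Matrix (Fin n) (Fin n) ℝ) (U : Set (V n)) (a b : V n) : Prop :=
  ∃ c ζ : ℝ → V n, Continuous ζ ∧ (∀ t ∈ Icc (0 : ℝ) 1, c t ∈ U) ∧ c 0 = a ∧ c 1 = b ∧
    ∀ t ∈ Icc (0 : ℝ) 1, HasDerivWithinAt c ((Q (c t)).mulVec (ζ t)) (Icc 0 1) t

/-- Poisson structures in coordinates -/
structure EPois (Ω : Set (V n)) (Q : V n → Matrix (Fin n) (Fin n) ℝ) : Prop where
  op : IsOpen Ω
  smooth : ∀ i j, ContDiffOn ℝ ∞ (fun z => Q z i j) Ω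
  anti : ∀ z ∈ Ω, ∀ i j, Q z i j = -Q z j i
  jac : ∀ z ∈ Ω, ∀ i j l, ∑ k, (Q z i k * pd k (fun y => Q y j l) z +
    Q z j k * pd k (fun y => Q y l i) z + Q z l k * pd k (fun y => Q y i j) z) = 0

/-- `L` lifts the image of `A` to the characteristic directions on `W`. -/
structure Lift (r : ℕ) (Q : V n → Matrix (Fin n) (Fin n) ℝ) (W : Set (V n))
    (A : V n →L[ℝ] V r) (L : V n → V r →L[ℝ] V n) (ζ : V n → V r →L[ℝ] V n) : Prop where
  op : IsOpen W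
  smooth : ContDiff ℝ ∞ L
  supp : HasCompactSupport L
  cont : ContinuousOn ζ W
  sec : ∀ z ∈ W, ∀ a, A (L z a) = a
  adm : ∀ z ∈ W, ∀ a, L z a = (Q z).mulVec (ζ z a)
  char : ∀ z ∈ W, (Q z).rank = r → ∀ ξ, L z (A ((Q z).mulVec ξ)) = (Q z).mulVec ξ

/-- `Z` is the flow of `z' = L(z) b`, with the Gronwall estimate -/
structure Flow (r : ℕ) (L : V n → V r →L[ℝ] V n) (Z : V n → V r → ℝ → V n) : Prop where
  init : ∀ z b, Z z b 0 = z
  der : ∀ z b t, HasDerivAt (Z z b) (L (Z z b t) b) t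
  gron : ∀ R : ℝ, ∃ C : ℝ, 0 ≤ C ∧ ∀ b : V r, ‖b‖ ≤ R → ∀ (z : V n) (w w' : ℝ → V n) (ε : ℝ),
    0 ≤ ε → (∀ s ∈ Icc (0 : ℝ) 1, HasDerivAt w (w' s) s) →
    (∀ s ∈ Icc (0 : ℝ) 1, ‖w' s - L (w s) b‖ ≤ ε) →
    ∀ s ∈ Icc (0 : ℝ) 1, ‖w s - Z z b s‖ ≤ C * (‖w 0 - z‖ + ε)

end

/-- RC: the rank is constant along admissible curves. -/
def S_RC : Prop := ∀ (n : ℕ) (Ω : Set (V n)) (Q : V n → Matrix (Fin n) (Fin n) ℝ) (a b : V n),
  EPois Ω Q → EPath Q Ω a b → (Q a).rank = (Q b).rank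

/-- FLOW: existence of the flow. -/
def S_FLOW : Prop := ∀ (n r : ℕ) (L : V n → V r →L[ℝ] V n), ContDiff ℝ ∞ L →
  HasCompactSupport L → ∃ Z, Flow r L Z

/-- FR: transport to the slice is constant along tangential curves. -/
def S_FR : Prop := ∀ (n r : ℕ) (L : V n → V r →L[ℝ] V n) (Z : V n → V r → ℝ → V n)
  (A : V n →L[ℝ] V r) (u0 : V r) (W : Set (V n)) (c : ℝ → V n) (α : ℝ → V r), ContDiff ℝ ∞ L →
  HasCompactSupport L → Flow r L Z →
  (∀ z ∈ W, ∀ a, A (L z a) = a) →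
  (∀ z ∈ W, ∀ a a', fderiv ℝ L z (L z a) a' = fderiv ℝ L z (L z a') a) →
  (∀ t ∈ Icc (0 : ℝ) 1, HasDerivWithinAt c (L (c t) (α t)) (Icc 0 1) t) →
  (∀ t ∈ Icc (0 : ℝ) 1, ∀ s ∈ Icc (0 : ℝ) 1, Z (c t) (u0 - A (c t)) s ∈ W) →
  Z (c 1) (u0 - A (c 1)) 1 = Z (c 0) (u0 - A (c 0)) 1

/-- CHO: existence of the lift. -/
def S_CHO : Prop := ∀ (n : ℕ) (Ω U : Set (V n)) (Q : V n → Matrix (Fin n) (Fin n) ℝ) (p : V n),
  EPois Ω Q → p ∈ Ω → IsOpen U → p ∈ U → ∃ (A : V n →L[ℝ] V (Q p).rank)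
    (L ζ : V n → V (Q p).rank →L[ℝ] V n) (W : Set (V n)), p ∈ W ∧ W ⊆ U ∧ W ⊆ Ω ∧
    Lift (Q p).rank Q W A L ζ

/-- INT: integrability at the points of rank `r`. -/
def S_INT : Prop := ∀ (n r : ℕ) (Ω W : Set (V n)) (Q : V n → Matrix (Fin n) (Fin n) ℝ)
  (A : V n →L[ℝ] V r) (L ζ : V n → V r →L[ℝ] V n), EPois Ω Q → W ⊆ Ω → Lift r Q W A L ζ →
  ∀ z ∈ W, (Q z).rank = r → ∀ a a', fderiv ℝ L z (L z a) a' = fderiv ℝ L z (L z a') a

/-- ELL: the local lemma in coordinates. -/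
def S_ELL : Prop := ∀ (n : ℕ) (Ω U : Set (V n)) (Q : V n → Matrix (Fin n) (Fin n) ℝ) (p : V n),
  EPois Ω Q → p ∈ Ω → IsOpen U → p ∈ U → ∃ W : Set (V n), IsOpen W ∧ p ∈ W ∧ W ⊆ U ∧
    ∀ (a b : ℕ → V n) (q : V n), Tendsto a atTop (𝓝 p) → Tendsto b atTop (𝓝 q) → q ∈ W →
      (∀ k, a k ∈ W) → (∀ k, (Q (a k)).rank = (Q p).rank) →
      (∀ k, Relation.ReflTransGen (EPath Q W) (a k) (b k)) → EPath Q U p q

/-- A coordinate chart `e`, whose coordinates extend to the smooth functions `y i` on `M`, in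
which the bracket has the components `Q`. -/
structure Coord {n : ℕ} {M : Type} [TopologicalSpace M] [ChartedSpace (V n) M]
    (P : Poisson n M) (e : OpenPartialHomeomorph M (V n)) (y : Fin n → M → ℝ)
    (Q : V n → Matrix (Fin n) (Fin n) ℝ) : Prop where
  ysm : ∀ i, Sm n (y i)
  ye : ∀ x ∈ e.source, ∀ i, y i x = e x i
  Qe : ∀ z ∈ e.target, ∀ i j, Q z i j = P.br (y i) (y j) (e.symm z)
  sm : ∀ f, Sm n f → ContDiffOn ℝ ∞ (fun z => f (e.symm z)) e.target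
  form : ∀ f g, Sm n f → Sm n g → ∀ x ∈ e.source, P.br f g x =
      ∑ i, ∑ j, pd i (fun z => f (e.symm z)) (e x) * pd j (fun z => g (e.symm z)) (e x) *
        Q (e x) i j

/-- DER: the bracket in local coordinates. -/
def S_DER : Prop := ∀ (n : ℕ) (M : Type) [TopologicalSpace M] [T2Space M]
  [ChartedSpace (V n) M] [IsManifold 𝓘(ℝ, V n) ∞ M] (P : Poisson n M) (p : M),
  ∃ (e : OpenPartialHomeomorph M (V n)) (y : Fin n → M → ℝ)
    (Q : V n → Matrix (Fin n) (Fin n) ℝ), p ∈ e.source ∧ Coord P e y Q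

/-- CP: Poisson structure and admissible curves in coordinates. -/
def S_CP : Prop := ∀ (n : ℕ) (M : Type) [TopologicalSpace M] [T2Space M]
  [ChartedSpace (V n) M] [IsManifold 𝓘(ℝ, V n) ∞ M] (P : Poisson n M)
  (e : OpenPartialHomeomorph M (V n)) (y : Fin n → M → ℝ)
  (Q : V n → Matrix (Fin n) (Fin n) ℝ), Coord P e y Q →
  EPois e.target Q ∧
  (∀ W ⊆ e.source, ∀ a b, HP P W a b → EPath Q (e '' W) (e a) (e b)) ∧
  (∀ W ⊆ e.target, ∀ a b, EPath Q W a b → HP P (e.symm '' W) (e.symm a) (e.symm b))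

/-- CR: the rank in coordinates. -/
def S_CR : Prop := ∀ (n : ℕ) (M : Type) [TopologicalSpace M] [T2Space M]
  [ChartedSpace (V n) M] [IsManifold 𝓘(ℝ, V n) ∞ M] (P : Poisson n M)
  (e : OpenPartialHomeomorph M (V n)) (y : Fin n → M → ℝ)
  (Q : V n → Matrix (Fin n) (Fin n) ℝ), Coord P e y Q →
  ∀ (r : ℕ), ∀ x ∈ e.source, RkGe P r x ↔ r ≤ (Q (e x)).rank

/-- LL: the local lemma on manifolds. -/
def S_LL : Prop := ∀ (n : ℕ) (M : Type) [TopologicalSpace M] [T2Space M]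
  [ChartedSpace (V n) M] [IsManifold 𝓘(ℝ, V n) ∞ M] (P : Poisson n M) (p : M) (r : ℕ)
  (U : Set M), RankEq P r p → IsOpen U → p ∈ U → ∃ W : Set M, IsOpen W ∧ p ∈ W ∧ W ⊆ U ∧
    ∀ (a b : ℕ → M) (q : M), Tendsto a atTop (𝓝 p) → Tendsto b atTop (𝓝 q) → q ∈ W →
      (∀ k, a k ∈ W) → (∀ k, RankEq P r (a k)) →
      (∀ k, Relation.ReflTransGen (HP P W) (a k) (b k)) → q ∈ plaque P U p

/-- FIN: the rank is finite. -/
def S_FIN : Prop := ∀ (n : ℕ) (M : Type) [TopologicalSpace M] [T2Space M]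
  [ChartedSpace (V n) M] [IsManifold 𝓘(ℝ, V n) ∞ M] (P : Poisson n M) (p : M),
  ∃ r, RankEq P r p

/-- CJ: Poisson diffeomorphisms map admissible curves to admissible curves. -/
def S_CJ : Prop := ∀ (n : ℕ) (M : Type) [TopologicalSpace M] [T2Space M]
  [ChartedSpace (V n) M] [IsManifold 𝓘(ℝ, V n) ∞ M] (P : Poisson n M) (ψ : M ≃ₜ M)
  (U W : Set M), IsPD P ψ → MapsTo ψ U W → ∀ a b, HP P U a b → HP P W (ψ a) (ψ b)

/-- RK: the rank under Poisson diffeomorphisms and limits, inverses, reversal of curves. -/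
def S_RK : Prop := ∀ (n : ℕ) (M : Type) [TopologicalSpace M] [T2Space M]
  [ChartedSpace (V n) M] [IsManifold 𝓘(ℝ, V n) ∞ M] (P : Poisson n M),
  (∀ ψ, IsPD P ψ → IsPD P ψ.symm) ∧
  (∀ ψ, IsPD P ψ → ∀ r x, RkGe P r (ψ x) ↔ RkGe P r x) ∧
  (∀ (r : ℕ) (a : ℕ → M) (x : M), Tendsto a atTop (𝓝 x) → RkGe P r x →
    ∀ᶠ k in atTop, RkGe P r (a k)) ∧
  (∀ (U : Set M) (a b : M), HP P U a b → HP P U b a ∧ a ∈ U ∧ b ∈ U)

/-- AR: inversion is continuous. -/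
def S_AR : Prop := ∀ (n : ℕ) (M : Type) [TopologicalSpace M] [T2Space M]
  [ChartedSpace (V n) M] (φ : ℕ → M ≃ₜ M) (φ0 : M ≃ₜ M), Conv φ φ0 →
  Conv (fun k => (φ k).symm) φ0.symm

/-- CT: continuity for the leaf topologies. -/
def S_CT : Prop := ∀ (n : ℕ) (M : Type) [TopologicalSpace M] [T2Space M]
  [ChartedSpace (V n) M] [IsManifold 𝓘(ℝ, V n) ∞ M] (P : Poisson n M) (φ : ℕ → M ≃ₜ M)
  (φ0 : M ≃ₜ M), (∀ k, IsPD P (φ k)) → Conv φ φ0 → ∀ (x : M) (U : Set M), IsOpen U → φ0 x ∈ U →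
  ∃ U' : Set M, IsOpen U' ∧ x ∈ U' ∧ ∀ y ∈ plaque P U' x, φ0 y ∈ plaque P U (φ0 x)

section
variable {n : ℕ} {M : Type} [TopologicalSpace M] [ChartedSpace (V n) M]

/-- The leaf topology of `M`. -/
@[reducible] def leafTop (P : Poisson n M) : TopologicalSpace M where
  IsOpen := LeafOpen P
  isOpen_univ := fun x _ => ⟨univ, isOpen_univ, mem_univ x, subset_univ _⟩
  isOpen_inter := by
    rintro S T hS hT x ⟨hxS, hxT⟩
    obtain ⟨U, hU, hxU, h1⟩ := hS x hxS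
    obtain ⟨U', hU', hxU', h2⟩ := hT x hxT
    have hmono : ∀ W W' : Set M, W ⊆ W' → plaque P W x ⊆ plaque P W' x := by
      intro W W' hW y hy
      have hy' : Relation.ReflTransGen (HP P W) x y := hy
      change Relation.ReflTransGen (HP P W') x y
      induction hy' with
      | refl => exact Relation.ReflTransGen.refl
      | tail h1 h2 ih =>
        refine (ih (by exact h1)).tail ?_
        obtain ⟨γ, N, h, ζ, g1, g2, g3⟩ := h2
        exact ⟨γ, N, h, ζ, g1, fun t ht => hW (g2 t ht), g3⟩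
    exact ⟨U ∩ U', hU.inter hU', ⟨hxU, hxU'⟩, subset_inter
      ((hmono _ _ inter_subset_left).trans h1) ((hmono _ _ inter_subset_right).trans h2)⟩
  isOpen_sUnion := by
    rintro S hS x ⟨T, hT, hxT⟩
    obtain ⟨U, hU, hxU, h1⟩ := hS T hT x hxT
    exact ⟨U, hU, hxU, h1.trans (subset_sUnion_of_mem hT)⟩

/-- The topology of the leaf through `x`. -/
@[reducible] def leafTopAt (P : Poisson n M) (x : M) : TopologicalSpace (leaf P x) :=
  TopologicalSpace.induced Subtype.val (leafTop P)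

end

/-- MAIN -/
def S_MAIN : Prop := ∀ (n : ℕ) (M : Type) [TopologicalSpace M] [T2Space M]
  [ChartedSpace (V n) M] [IsManifold 𝓘(ℝ, V n) ∞ M] (P : Poisson n M) (φ : ℕ → M ≃ₜ M)
  (φ0 : M ≃ₜ M), (∀ k, IsPD P (φ k)) →
  Tendsto (fun k => (⟨φ k, (φ k).continuous⟩ : C(M, M))) atTop (𝓝 ⟨φ0, φ0.continuous⟩) →
  ∀ x : M, φ0 '' leaf P x = leaf P (φ0 x) ∧
    ∃ F : leaf P x ≃ leaf P (φ0 x), (∀ y : leaf P x, (F y : M) = φ0 y) ∧
      Continuous[leafTopAt P x, leafTopAt P (φ0 x)] F ∧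
      Continuous[leafTopAt P (φ0 x), leafTopAt P x] F.symm

end Pool.Agent.R235.PH
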