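import Mathlib
import Pool.Agent.R235.PH.Stm

set_option autoImplicit false

open Set Filter Topology Metric
open scoped ContDiff Manifold NNReal

namespace Pool.Agent.R235.PH.PFLOW

/-- Bounded Lipschitz vector fields are complete. -/
lemma exists_global_solution {F : Type*} [NormedAddCommGroup F] [NormedSpace ℝ F]
    [CompleteSpace F] (W : F → F) (K L : ℝ≥0) (hK : LipschitzWith K W)
    (hL : ∀ x, ‖W x‖ ≤ L) (x₀ : F) :
    ∃ α : ℝ → F, α 0 = x₀ ∧ ∀ t, HasDerivAt α (W (α t)) t := by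
  have key : ∀ n : ℕ, ∃ α : ℝ → F, α 0 = x₀ ∧ ∀ t ∈ Ioo (-(n + 1 : ℝ)) (n + 1),
      HasDerivAt α (W (α t)) t := by
    intro n
    have h0 : (0 : ℝ) ∈ Icc (-(n + 1 : ℝ)) (n + 1) := ⟨by linarith [n.cast_nonneg (α := ℝ)],
      by positivity⟩
    have hpl : IsPicardLindelof (fun _ => W) (⟨0, h0⟩ : Icc (-(n + 1 : ℝ)) (n + 1)) x₀
        (L * (n + 1 : ℝ≥0)) 0 L K := by
      apply IsPicardLindelof.of_time_independent (fun x _ => hL x) (hK.lipschitzOnWith)
      simp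
    obtain ⟨α, h1, h2⟩ := hpl.exists_eq_forall_mem_Icc_hasDerivWithinAt₀
    refine ⟨α, h1, fun t ht => ?_⟩
    exact (h2 t (Ioo_subset_Icc_self ht)).hasDerivAt (Icc_mem_nhds ht.1 ht.2)
  choose α hα0 hα using key
  have huniq : ∀ n m : ℕ, n ≤ m → EqOn (α n) (α m) (Ioo (-(n + 1 : ℝ)) (n + 1)) := by
    intro n m hnm
    have hc : (n : ℝ) ≤ m := by exact_mod_cast hnm
    have h0 : (0 : ℝ) ∈ Ioo (-(n + 1 : ℝ)) (n + 1) := ⟨by linarith [n.cast_nonneg (α := ℝ)],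
      by positivity⟩
    refine ODE_solution_unique_of_mem_Ioo (v := fun _ => W) (s := fun _ => univ) (K := K)
      (fun t _ => hK.lipschitzOnWith) h0 (fun t ht => ⟨hα n t ht, mem_univ _⟩)
      (fun t ht => ⟨hα m t ⟨by linarith [ht.1], by linarith [ht.2]⟩, mem_univ _⟩) ?_
    rw [hα0, hα0]
  refine ⟨fun t => α ⌈|t|⌉₊ t, ?_, fun t => ?_⟩
  · simp only
    exact hα0 _
  · have hev : (fun s => α ⌈|s|⌉₊ s) =ᶠ[𝓝 t] α (⌈|t|⌉₊ + 1) := by
      have h1 : ∀ᶠ s in 𝓝 t, |s| < |t| + 1 := by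
        have : Continuous fun s : ℝ => |s| := continuous_abs
        exact this.continuousAt.eventually_lt continuousAt_const (by simp)
      filter_upwards [h1] with s hs
      have h2 : ⌈|s|⌉₊ ≤ ⌈|t|⌉₊ + 1 := by
        apply Nat.ceil_le.2
        have := Nat.le_ceil (|t|)
        push_cast
        linarith
      apply huniq _ _ h2
      have h3 := Nat.le_ceil (|s|)
      have h4 := abs_le.1 (le_refl |s|)
      constructor <;> linarith
    have h5 : HasDerivAt (α (⌈|t|⌉₊ + 1)) (W (α (⌈|t|⌉₊ + 1) t)) t := by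
      apply hα
      have h3 := Nat.le_ceil (|t|)
      have h4 := abs_le.1 (le_refl |t|)
      push_cast
      constructor <;> linarith
    have h6 := h5.congr_of_eventuallyEq hev
    have h7 : α (⌈|t|⌉₊ + 1) t = α ⌈|t|⌉₊ t := hev.self_of_nhds.symm
    rw [h7] at h6
    exact h6

/-- FLOW. -/
theorem t_FLOW : S_FLOW := by
  intro n r L hL hc
  obtain ⟨K₀, hK₀⟩ := hL.lipschitzWith_of_hasCompactSupport hc (by simp)
  obtain ⟨M, hM⟩ := hL.continuous.bounded_above_of_compact_support hc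
  have hlip : ∀ b : V r, LipschitzWith (K₀ * ‖b‖₊) (fun z => L z b) := by
    intro b
    refine LipschitzWith.of_dist_le_mul fun x y => ?_
    rw [dist_eq_norm, ← sub_apply]
    calc ‖(L x - L y) b‖ ≤ ‖L x - L y‖ * ‖b‖ := ContinuousLinearMap.le_opNorm _ _
      _ ≤ (K₀ * dist x y) * ‖b‖ := by
        gcongr
        rw [← dist_eq_norm]
        exact hK₀.dist_le_mul x y
      _ = ((K₀ * ‖b‖₊ : ℝ≥0) : ℝ) * dist x y := by push_cast; ring
  have hbd : ∀ (b : V r) (z : V n), ‖L z b‖ ≤ ((M.toNNReal * ‖b‖₊ : ℝ≥0) : ℝ) := by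
    intro b z
    calc ‖L z b‖ ≤ ‖L z‖ * ‖b‖ := ContinuousLinearMap.le_opNorm _ _
      _ ≤ M.toNNReal * ‖b‖ := by
        gcongr
        exact (hM z).trans (Real.le_coe_toNNReal M)
      _ = ((M.toNNReal * ‖b‖₊ : ℝ≥0) : ℝ) := by push_cast; ring
  have key := fun (z : V n) (b : V r) => exists_global_solution (fun z => L z b)
    (K₀ * ‖b‖₊) (M.toNNReal * ‖b‖₊) (hlip b) (hbd b) z
  choose Z hZ0 hZ using key
  refine ⟨Z, hZ0, fun z b t => hZ z b t, ?_⟩
  intro R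
  refine ⟨Real.exp ((K₀ * R.toNNReal + 1 : ℝ≥0) : ℝ), (Real.exp_pos _).le, ?_⟩
  intro b hb z w w' ε hε hw hw' s hs
  have hlip' : LipschitzWith (K₀ * R.toNNReal + 1) (fun z => L z b) := by
    apply (hlip b).weaken
    have h1 : ‖b‖₊ ≤ R.toNNReal := by
      rw [← NNReal.coe_le_coe]
      exact (show ((‖b‖₊ : ℝ≥0) : ℝ) ≤ R from hb).trans (Real.le_coe_toNNReal R)
    calc K₀ * ‖b‖₊ ≤ K₀ * R.toNNReal := by gcongr
      _ ≤ K₀ * R.toNNReal + 1 := by simp
  have hmain := dist_le_of_approx_trajectories_ODE (v := fun _ z => L z b)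
    (K := K₀ * R.toNNReal + 1) (f := w) (f' := w') (g := Z z b) (g' := fun t => L (Z z b t) b)
    (a := 0) (b := 1) (εf := ε) (εg := 0) (δ := ‖w 0 - z‖) (fun _ => hlip')
    (fun t ht => (hw t ht).continuousAt.continuousWithinAt)
    (fun t ht => (hw t ⟨ht.1, ht.2.le⟩).hasDerivWithinAt)
    (fun t ht => by rw [dist_eq_norm]; exact hw' t ⟨ht.1, ht.2.le⟩)
    (fun t _ => (hZ z b t).continuousAt.continuousWithinAt)
    (fun t _ => (hZ z b t).hasDerivWithinAt)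
    (fun t _ => by simp) (by rw [hZ0, dist_eq_norm]) s hs
  rw [dist_eq_norm] at hmain
  refine hmain.trans ?_
  have hK1 : (1 : ℝ) ≤ ((K₀ * R.toNNReal + 1 : ℝ≥0) : ℝ) := by
    push_cast
    have : (0 : ℝ) ≤ (K₀ : ℝ) * (R.toNNReal : ℝ) := by positivity
    linarith
  obtain ⟨κ, hκ⟩ : ∃ κ : ℝ, κ = ((K₀ * R.toNNReal + 1 : ℝ≥0) : ℝ) := ⟨_, rfl⟩
  rw [← hκ] at hK1 ⊢
  rw [gronwallBound_of_K_ne_0 (by linarith : κ ≠ 0)]
  simp only [add_zero, sub_zero]
  have hes : Real.exp (κ * s) ≤ Real.exp κ := by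
    apply Real.exp_le_exp.mpr
    have := hs.2
    nlinarith [hs.1]
  have hes1 : 1 ≤ Real.exp (κ * s) := by
    apply Real.one_le_exp
    exact mul_nonneg (by linarith) hs.1
  have h1 : ε / κ ≤ ε := div_le_self hε hK1
  have h2 : 0 ≤ ε / κ := by positivity
  have h3 : ‖w 0 - z‖ * Real.exp (κ * s) ≤ ‖w 0 - z‖ * Real.exp κ := by gcongr
  have h4 : ε / κ * (Real.exp (κ * s) - 1) ≤ ε * Real.exp κ := by
    apply mul_le_mul h1 (by linarith) (by linarith) hε
  linarith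

end Pool.Agent.R235.PH.PFLOW
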