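import Pool.Agent.R235.PH.Stm

/-! PH-FR (helper861, subtask 4694, MP_5d95cf_gt): transport to the slice is constant along
tangential curves. -/

set_option autoImplicit false

open Set Filter Topology
open scoped ContDiff Manifold

set_option maxHeartbeats 400000

namespace Pool.Agent.R235.PH.PFR

/-- quadratic remainder -/
theorem taylor {E F : Type*} [NormedAddCommGroup E] [NormedSpace ℝ E] [NormedAddCommGroup F]
    [NormedSpace ℝ F] {f : E → F} (hf : Differentiable ℝ f) {K : NNReal}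
    (hK : LipschitzWith K (fderiv ℝ f)) (x y : E) :
    ‖f y - f x - fderiv ℝ f x (y - x)‖ ≤ K * ‖y - x‖ ^ 2 := by
  have h := (convex_segment x y).norm_image_sub_le_of_norm_fderiv_le' (𝕜 := ℝ) (f := f)
    (φ := fderiv ℝ f x) (C := K * ‖y - x‖) (fun z _ => hf z) ?_ (left_mem_segment ℝ x y)
    (right_mem_segment ℝ x y)
  · rw [pow_two, ← mul_assoc]; exact h
  · intro z hz
    have h1 := hK.dist_le_mul z x
    rw [dist_eq_norm, dist_eq_norm] at h1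
    exact h1.trans (mul_le_mul_of_nonneg_left (norm_sub_le_of_mem_segment hz) K.2)

section abstr

variable {E F : Type*} [NormedAddCommGroup E] [NormedSpace ℝ E] [NormedAddCommGroup F]
  [NormedSpace ℝ F]

theorem alg (D : E →L[ℝ] F →L[ℝ] E) (Lz Lw : F →L[ℝ] E) (h : E) (a b : F) (σ : ℝ)
    (hh : h = σ • Lz a) (hint : (D (Lz b)) a = (D (Lz a)) b) :
    (Lz b + (σ • (D (Lz b)) a + (-1 : ℝ) • Lz a)) - Lw (b - a) =
      (D h) a - (Lw - Lz - D h) (b - a) := by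
  have e3 : (D h) b = σ • (D (Lz b)) a := by
    rw [hh, map_smul, ContinuousLinearMap.smul_apply, hint]
  rw [← e3, neg_smul, one_smul, ContinuousLinearMap.sub_apply, ContinuousLinearMap.sub_apply,
    map_sub Lz, map_sub (D h)]
  abel

theorem est {L : E → F →L[ℝ] E} (hdiff : Differentiable ℝ L) {K0 K1 : ℝ} {K2 : NNReal}
    (hK0 : ∀ z, ‖L z‖ ≤ K0) (hK1 : ∀ z, ‖fderiv ℝ L z‖ ≤ K1)
    (hK2 : LipschitzWith K2 (fderiv ℝ L)) (z : E) (a b : F) (σ : ℝ) (hσ : |σ| ≤ 1) {R : ℝ}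
    (hR : 0 ≤ R) (hba : ‖b - a‖ ≤ R)
    (hint : (fderiv ℝ L z (L z b)) a = (fderiv ℝ L z (L z a)) b) :
    ‖(L z b + (σ • (fderiv ℝ L z (L z b)) a + (-1 : ℝ) • L z a)) -
      L (z + σ • L z a) (b - a)‖ ≤ (K1 * K0 + K2 * K0 ^ 2 * R) * ‖a‖ ^ 2 := by
  have hK00 : 0 ≤ K0 := le_trans (norm_nonneg _) (hK0 z)
  have hK10 : 0 ≤ K1 := le_trans (norm_nonneg (fderiv ℝ L z)) (hK1 z)
  have hLa : ‖(L z) a‖ ≤ K0 * ‖a‖ := (L z).le_of_opNorm_le (hK0 z) a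
  obtain ⟨h, hh⟩ : ∃ h : E, h = σ • L z a := ⟨_, rfl⟩
  have hhn : ‖h‖ ≤ K0 * ‖a‖ := by
    rw [hh, norm_smul, Real.norm_eq_abs]
    calc |σ| * ‖(L z) a‖ ≤ 1 * (K0 * ‖a‖) :=
          mul_le_mul hσ hLa (norm_nonneg _) (by norm_num)
      _ = K0 * ‖a‖ := one_mul _
  have htay := taylor hdiff hK2 z (z + h)
  rw [add_sub_cancel_left] at htay
  rw [← hh, alg (fderiv ℝ L z) (L z) (L (z + h)) h a b σ hh hint]
  have h1 : ‖(fderiv ℝ L z h) a‖ ≤ K1 * (K0 * ‖a‖) * ‖a‖ := by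
    calc ‖(fderiv ℝ L z h) a‖ ≤ ‖fderiv ℝ L z h‖ * ‖a‖ := ContinuousLinearMap.le_opNorm _ _
      _ ≤ (K1 * ‖h‖) * ‖a‖ := by
          refine mul_le_mul_of_nonneg_right ?_ (norm_nonneg _)
          exact (fderiv ℝ L z).le_of_opNorm_le (hK1 z) h
      _ ≤ K1 * (K0 * ‖a‖) * ‖a‖ := by gcongr
  have h2 : ‖(L (z + h) - L z - fderiv ℝ L z h) (b - a)‖ ≤ (K2 * (K0 * ‖a‖) ^ 2) * R := by
    calc ‖(L (z + h) - L z - fderiv ℝ L z h) (b - a)‖
        ≤ ‖L (z + h) - L z - fderiv ℝ L z h‖ * ‖b - a‖ := ContinuousLinearMap.le_opNorm _ _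
      _ ≤ (K2 * ‖h‖ ^ 2) * R := mul_le_mul htay hba (norm_nonneg _) (by positivity)
      _ ≤ (K2 * (K0 * ‖a‖) ^ 2) * R := by gcongr
  calc ‖(fderiv ℝ L z h) a - (L (z + h) - L z - fderiv ℝ L z h) (b - a)‖
      ≤ ‖(fderiv ℝ L z h) a‖ + ‖(L (z + h) - L z - fderiv ℝ L z h) (b - a)‖ := norm_sub_le _ _
    _ ≤ K1 * (K0 * ‖a‖) * ‖a‖ + (K2 * (K0 * ‖a‖) ^ 2) * R := add_le_add h1 h2
    _ = (K1 * K0 + K2 * K0 ^ 2 * R) * ‖a‖ ^ 2 := by ring

theorem hder_aux {L : E → F →L[ℝ] E} (hdiff : Differentiable ℝ L) (a b : F) {ζ : ℝ → E} {s : ℝ}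
    (h1 : HasDerivAt ζ (L (ζ s) b) s) :
    HasDerivAt (fun s => ζ s + (1 - s) • (L (ζ s)) a)
      (L (ζ s) b + ((1 - s) • (fderiv ℝ L (ζ s) (L (ζ s) b)) a + (-1 : ℝ) • (L (ζ s)) a)) s := by
  have h2 : HasDerivAt (fun s => L (ζ s)) (fderiv ℝ L (ζ s) (L (ζ s) b)) s :=
    (hdiff (ζ s)).hasFDerivAt.comp_hasDerivAt s h1
  have h3 : HasDerivAt (fun s => (L (ζ s)) a) ((fderiv ℝ L (ζ s) (L (ζ s) b)) a) s := by
    have := h2.clm_apply (hasDerivAt_const s a)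
    simpa using this
  have h4 : HasDerivAt (fun s : ℝ => 1 - s) (-1) s := by
    simpa using (hasDerivAt_id s).const_sub 1
  exact h1.add (h4.smul h3)

theorem bounds0 {L : E → F →L[ℝ] E} (hL : ContDiff ℝ ∞ L) (hc : HasCompactSupport L) :
    ∃ (K0 : ℝ), 0 ≤ K0 ∧ (∀ z, ‖L z‖ ≤ K0) := by
  obtain ⟨K0, hK0⟩ := hc.exists_bound_of_continuous hL.continuous
  exact ⟨K0, le_trans (norm_nonneg (L 0)) (hK0 0), hK0⟩

theorem bounds1 {L : E → F →L[ℝ] E} (hL : ContDiff ℝ ∞ L) (hc : HasCompactSupport L) :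
    ∃ (K1 : NNReal), (∀ z, ‖fderiv ℝ L z‖ ≤ K1) := by
  obtain ⟨K, hK⟩ := ContDiff.lipschitzWith_of_hasCompactSupport hc hL (by norm_num)
  exact ⟨K, fun z => norm_fderiv_le_of_lipschitz ℝ hK⟩

theorem bounds2 {L : E → F →L[ℝ] E} (hL : ContDiff ℝ ∞ L) (hc : HasCompactSupport L) :
    ∃ (K2 : NNReal), LipschitzWith K2 (fderiv ℝ L) := by
  have hfd : ContDiff ℝ ∞ (fderiv ℝ L) := hL.fderiv_right (by norm_num)
  exact ContDiff.lipschitzWith_of_hasCompactSupport (hc.fderiv ℝ) hfd (by norm_num)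

/-- all estimates for the comparison curve -/
theorem est_all {L : E → F →L[ℝ] E} (hL : ContDiff ℝ ∞ L) (hc : HasCompactSupport L) {R : ℝ}
    (hR : 0 ≤ R) : ∃ K : ℝ, 0 ≤ K ∧ ∀ (z : E) (a b : F) (σ : ℝ), |σ| ≤ 1 → ‖b - a‖ ≤ R →
      (fderiv ℝ L z (L z b)) a = (fderiv ℝ L z (L z a)) b →
      ‖(L z b + (σ • (fderiv ℝ L z (L z b)) a + (-1 : ℝ) • L z a)) -
        L (z + σ • L z a) (b - a)‖ ≤ K * ‖a‖ ^ 2 := by
  obtain ⟨K0, hK00, hK0⟩ := bounds0 hL hc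
  obtain ⟨K1, hK1⟩ := bounds1 hL hc
  obtain ⟨K2, hK2⟩ := bounds2 hL hc
  exact ⟨(K1 : ℝ) * K0 + K2 * K0 ^ 2 * R, by positivity, fun z a b σ hσ hba hint =>
    est (hL.differentiable (by norm_num)) hK0 hK1 hK2 z a b σ hσ hR hba hint⟩

end abstr

/-- the comparison curve -/
theorem key {n r : ℕ} {L : V n → V r →L[ℝ] V n} {Z : V n → V r → ℝ → V n}
    (hL : ContDiff ℝ ∞ L) (hc : HasCompactSupport L) (hF : Flow r L Z) (R : ℝ) (hR : 0 ≤ R) :
    ∃ C : ℝ, 0 ≤ C ∧ ∀ (z₀ z₁ : V n) (b a : V r), ‖b‖ ≤ R → ‖a‖ ≤ 1 →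
      (∀ s ∈ Icc (0 : ℝ) 1, fderiv ℝ L (Z z₀ b s) (L (Z z₀ b s) b) a =
        fderiv ℝ L (Z z₀ b s) (L (Z z₀ b s) a) b) →
      ‖Z z₀ b 1 - Z z₁ (b - a) 1‖ ≤ C * (‖z₀ + L z₀ a - z₁‖ + ‖a‖ ^ 2) := by
  have hdiff : Differentiable ℝ L := hL.differentiable (by norm_num)
  obtain ⟨C, hC0, hC⟩ := hF.gron (R + 1)
  obtain ⟨K, hKnn, hK⟩ := est_all hL hc (show 0 ≤ R + 1 by linarith)
  refine ⟨C * (1 + K), by positivity, ?_⟩
  intro z₀ z₁ b a hb ha hint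
  have hba : ‖b - a‖ ≤ R + 1 := (norm_sub_le _ _).trans (by linarith)
  have hfin := hC (b - a) hba z₁ (fun s => Z z₀ b s + (1 - s) • (L (Z z₀ b s)) a)
    (fun s => L (Z z₀ b s) b +
      ((1 - s) • (fderiv ℝ L (Z z₀ b s) (L (Z z₀ b s) b)) a + (-1 : ℝ) • (L (Z z₀ b s)) a))
    (K * ‖a‖ ^ 2) (by positivity)
    (fun s _ => hder_aux hdiff a b (hF.der z₀ b s))
    (fun s hs => hK (Z z₀ b s) a b (1 - s)
      (abs_le.2 ⟨by linarith [hs.2], by linarith [hs.1]⟩) hba (hint s hs)) 1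
    ⟨by norm_num, le_refl _⟩
  simp only [sub_self, zero_smul, add_zero, sub_zero, one_smul, hF.init] at hfin
  refine hfin.trans ?_
  rw [mul_assoc]
  refine mul_le_mul_of_nonneg_left ?_ hC0
  have p1 : 0 ≤ ‖z₀ + L z₀ a - z₁‖ := norm_nonneg _
  have p2 : 0 ≤ ‖a‖ ^ 2 := by positivity
  have p3 := mul_nonneg hKnn p1
  have e : (1 + K) * (‖z₀ + L z₀ a - z₁‖ + ‖a‖ ^ 2) =
      ‖z₀ + L z₀ a - z₁‖ + K * ‖a‖ ^ 2 + K * ‖z₀ + L z₀ a - z₁‖ + ‖a‖ ^ 2 := by ring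
  rw [e]
  linarith

theorem t_FR : S_FR := by
  intro n r L Z A u0 W c α hL hcs hF hsec hint hder hW
  set g : ℝ → V n := fun t => Z (c t) (u0 - A (c t)) 1 with hg
  have hgder : ∀ t ∈ Icc (0 : ℝ) 1, HasDerivWithinAt g 0 (Icc 0 1) t := by
    intro t ht
    set b : V r := u0 - A (c t) with hb
    have hcW : c t ∈ W := by
      have := hW t ht 0 ⟨le_refl _, by norm_num⟩
      rwa [hF.init] at this
    obtain ⟨C, hC0, hC⟩ := key hL hcs hF ‖b‖ (norm_nonneg _)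
    have hcd := hder t ht
    have hAc : HasDerivWithinAt (fun s => A (c s)) (A (L (c t) (α t))) (Icc 0 1) t :=
      A.hasFDerivAt.comp_hasDerivWithinAt t hcd
    rw [hsec _ hcW] at hAc
    -- the curve in the kernel
    have hker : HasDerivWithinAt (fun s => c s - (L (c t)) (A (c s))) 0 (Icc 0 1) t := by
      have h1 : HasDerivWithinAt (fun s => (L (c t)) (A (c s))) ((L (c t)) (α t)) (Icc 0 1) t :=
        (L (c t)).hasFDerivAt.comp_hasDerivWithinAt t hAc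
      have h2 := hcd.sub h1
      rwa [sub_self] at h2
    rw [hasDerivWithinAt_iff_isLittleO] at hker ⊢
    have hAO : (fun t' => A (c t') - A (c t)) =O[𝓝[Icc 0 1] t] fun t' => t' - t :=
      hAc.hasFDerivWithinAt.isBigO_sub
    have hA0 : Tendsto (fun t' => A (c t') - A (c t)) (𝓝[Icc 0 1] t) (𝓝 0) := by
      have := hAc.continuousWithinAt.tendsto.sub_const (A (c t))
      simpa using this
    have hAsq : (fun t' => ‖A (c t') - A (c t)‖ ^ 2) =o[𝓝[Icc 0 1] t] fun t' => t' - t := by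
      have h1 : (fun t' => ‖A (c t') - A (c t)‖) =o[𝓝[Icc 0 1] t] fun _ => (1 : ℝ) := by
        rw [Asymptotics.isLittleO_one_iff]
        simpa using hA0.norm
      have h2 := h1.mul_isBigO hAO.norm_left
      simpa only [one_mul, pow_two] using h2
    have hsum : (fun t' => ‖(c t' - (L (c t)) (A (c t'))) - (c t - (L (c t)) (A (c t))) -
        (t' - t) • (0 : V n)‖ + ‖A (c t') - A (c t)‖ ^ 2) =o[𝓝[Icc 0 1] t] fun t' => t' - t :=
      hker.norm_left.add hAsq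
    refine Asymptotics.IsBigO.trans_isLittleO ?_ hsum
    refine Asymptotics.IsBigO.of_bound C ?_
    have hsmall : ∀ᶠ t' in 𝓝[Icc 0 1] t, ‖A (c t') - A (c t)‖ ≤ 1 := by
      have := (hA0.norm).eventually_le_const (show ‖(0 : V r)‖ < 1 by simp)
      exact this
    filter_upwards [hsmall, self_mem_nhdsWithin] with t' ht'1 ht'
    have hmain := hC (c t) (c t') b (A (c t') - A (c t)) (le_refl _) ht'1 (by
      intro s hs
      exact hint _ (hW t ht s hs) b (A (c t') - A (c t)))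
    have e1 : b - (A (c t') - A (c t)) = u0 - A (c t') := by rw [hb]; abel
    rw [e1] at hmain
    have e2 : c t + (L (c t)) (A (c t') - A (c t)) - c t' =
        -((c t' - (L (c t)) (A (c t'))) - (c t - (L (c t)) (A (c t)))) := by
      rw [map_sub]; abel
    rw [e2, norm_neg] at hmain
    rw [smul_zero, sub_zero, sub_zero, norm_sub_rev, Real.norm_eq_abs,
      abs_of_nonneg (by positivity)]
    exact hmain
  have hconst := constant_of_derivWithin_zero (f := g) (a := 0) (b := 1)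
    (fun t ht => (hgder t ht).differentiableWithinAt)
    (fun t ht => (hgder t ⟨ht.1, ht.2.le⟩).derivWithin
      ((uniqueDiffOn_Icc (by norm_num : (0 : ℝ) < 1)) t ⟨ht.1, ht.2.le⟩))
  exact hconst 1 ⟨by norm_num, le_refl _⟩

end Pool.Agent.R235.PH.PFR
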