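import Pool.Agent.R235.PH.Stm

/-!
# PH-INT: integrability at the points of rank `r`
-/

set_option autoImplicit false

open Set Filter Topology
open scoped ContDiff Manifold

namespace Pool.Agent.R235.PH.PINT

open Pool.Agent.R235.PH

variable {n : ℕ}

/-- `z ↦ Q z ξ` -/
noncomputable def q (Q : V n → Matrix (Fin n) (Fin n) ℝ) (ξ : V n) : V n → V n :=
  fun z => (Q z).mulVec ξ

lemma smooth_q {Ω : Set (V n)} {Q : V n → Matrix (Fin n) (Fin n) ℝ} (h : EPois Ω Q) (ξ : V n) :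
    ContDiffOn ℝ ∞ (q Q ξ) Ω := by
  rw [contDiffOn_pi]
  intro i
  show ContDiffOn ℝ ∞ (fun z => ∑ j, Q z i j * ξ j) Ω
  exact ContDiffOn.sum fun j _ => (h.smooth i j).mul contDiffOn_const

lemma expand (T : V n →L[ℝ] ℝ) (X : V n) : T X = ∑ k, X k * T (Pi.single k 1) := by
  have hX : X = ∑ k, X k • (Pi.single k (1 : ℝ) : V n) := by
    ext i
    simp [Finset.sum_apply, Pi.single_apply]
  conv_lhs => rw [hX]
  rw [map_sum]
  refine Finset.sum_congr rfl fun k _ => ?_
  rw [map_smul, smul_eq_mul]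

lemma fderiv_q {Ω : Set (V n)} {Q : V n → Matrix (Fin n) (Fin n) ℝ} (h : EPois Ω Q) (ξ : V n)
    {z : V n} (hz : z ∈ Ω) (X : V n) (i : Fin n) :
    fderiv ℝ (q Q ξ) z X i = ∑ j, (∑ k, X k * pd k (fun y => Q y i j) z) * ξ j := by
  have hd : ∀ i j, DifferentiableAt ℝ (fun y => Q y i j) z := fun i j =>
    ((h.smooth i j).contDiffAt (h.op.mem_nhds hz)).differentiableAt (by simp)
  have h1 : HasFDerivAt (q Q ξ) (ContinuousLinearMap.pi fun i : Fin n =>
      ∑ j, ξ j • fderiv ℝ (fun y => Q y i j) z) z := by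
    rw [hasFDerivAt_pi]
    intro i
    show HasFDerivAt (fun y => ∑ j, Q y i j * ξ j) _ z
    refine HasFDerivAt.fun_sum fun j _ => ?_
    exact (hd i j).hasFDerivAt.mul_const (ξ j)
  rw [h1.fderiv]
  rw [ContinuousLinearMap.pi_apply, sum_apply]
  refine Finset.sum_congr rfl fun j _ => ?_
  rw [smul_apply, expand, smul_eq_mul, mul_comm]
  rfl

lemma key (hRC : S_RC) {r : ℕ} {Ω W : Set (V n)} {Q : V n → Matrix (Fin n) (Fin n) ℝ}
    {A : V n →L[ℝ] V r} {L ζ : V n → V r →L[ℝ] V n} (hE : EPois Ω Q) (hW : W ⊆ Ω)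
    (hL : Lift r Q W A L ζ) {z : V n} (hz : z ∈ W) (hr : (Q z).rank = r) (ξ η : V n) :
    fderiv ℝ (q Q ξ) z (q Q η z) =
      fderiv ℝ L z (q Q η z) (A (q Q ξ z)) + L z (A (fderiv ℝ (q Q ξ) z (q Q η z))) := by
  have hzΩ : z ∈ Ω := hW hz
  have hnh : Ω ∈ 𝓝 z := hE.op.mem_nhds hzΩ
  have hf : ContDiffAt ℝ 1 (q Q η) z := ((smooth_q hE η).contDiffAt hnh).of_le (by norm_cast)
  obtain ⟨α, hα0, ε, hε, hα⟩ :=
    hf.exists_forall_mem_closedBall_exists_eq_forall_mem_Ioo_hasDerivAt₀ 0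
  simp only [zero_sub, zero_add] at hα
  have hαc : ContinuousAt α 0 := (hα 0 ⟨by linarith, hε⟩).continuousAt
  have hev : ∀ᶠ t in 𝓝 (0 : ℝ), α t ∈ W := by
    apply hαc
    rw [hα0]
    exact hL.op.mem_nhds hz
  obtain ⟨δ, hδ, hδW⟩ := Metric.eventually_nhds_iff.1 hev
  set d : ℝ := min δ ε with hd
  have hd0 : 0 < d := lt_min hδ hε
  have hWt : ∀ t : ℝ, 0 ≤ t → t < d → α t ∈ W := by
    intro t ht0 htd
    apply hδW
    rw [Real.dist_eq, sub_zero, abs_of_nonneg ht0]
    exact htd.trans_le (min_le_left _ _)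
  -- the rank along the curve
  have hrk : ∀ t : ℝ, 0 ≤ t → t < d → (Q (α t)).rank = r := by
    intro t ht0 htd
    have hpath : EPath Q Ω z (α t) := by
      refine ⟨fun s => α (t * s), fun _ => t • η, continuous_const, ?_, ?_, ?_, ?_⟩
      · intro s hs
        exact hW (hWt (t * s) (mul_nonneg ht0 hs.1)
          ((mul_le_of_le_one_right ht0 hs.2).trans_lt htd))
      · simp only [mul_zero, hα0]
      · simp only [mul_one]
      · intro s hs
        have hts : t * s ∈ Ioo (-ε) ε := by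
          have h1 : 0 ≤ t * s := mul_nonneg ht0 hs.1
          have h2 : t * s < ε :=
            ((mul_le_of_le_one_right ht0 hs.2).trans_lt htd).trans_le (min_le_right _ _)
          exact ⟨by linarith, h2⟩
        have h1 : HasDerivAt (fun s : ℝ => t * s) t s := by
          simpa using (hasDerivAt_id s).const_mul t
        have h2 := (hα (t * s) hts).scomp s h1
        have h3 : t • q Q η (α (t * s)) = (Q (α (t * s))).mulVec (t • η) := by
          rw [Matrix.mulVec_smul]; rfl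
        rw [h3] at h2
        exact h2.hasDerivWithinAt
    rw [← hRC n Ω Q z (α t) hE hpath, hr]
  -- the function which vanishes along the curve
  have hq : HasFDerivAt (q Q ξ) (fderiv ℝ (q Q ξ) z) z :=
    (((smooth_q hE ξ).contDiffAt hnh).differentiableAt (by simp)).hasFDerivAt
  have hLd : HasFDerivAt L (fderiv ℝ L z) z :=
    (hL.smooth.differentiable (by simp) z).hasFDerivAt
  have hAq : HasFDerivAt (fun y => A (q Q ξ y)) (A.comp (fderiv ℝ (q Q ξ) z)) z :=
    A.hasFDerivAt.comp z hq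
  have hcomp := hLd.clm_apply hAq
  have hE' := hq.sub hcomp
  have h0 : HasDerivAt α (q Q η z) 0 := by
    have := hα 0 ⟨by linarith, hε⟩
    rwa [hα0] at this
  have hE2 : HasFDerivAt (q Q ξ - fun y => (L y) (A (q Q ξ y)))
      (fderiv ℝ (q Q ξ) z - ((L z).comp (A.comp (fderiv ℝ (q Q ξ) z)) +
        (fderiv ℝ L z).flip (A (q Q ξ z)))) (α 0) := by
    rw [hα0]
    exact hE'
  have h1 := hE2.comp_hasDerivAt 0 h0
  have h2 : HasDerivWithinAt ((q Q ξ - fun y => (L y) (A (q Q ξ y))) ∘ α) 0 (Ici 0) 0 := by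
    have hc : HasDerivWithinAt (fun _ : ℝ => (0 : V n)) 0 (Ici 0) 0 := hasDerivWithinAt_const _ _ _
    refine hc.congr_of_eventuallyEq ?_ ?_
    · have hmem : Ico (0 : ℝ) d ∈ 𝓝[≥] (0 : ℝ) := Ico_mem_nhdsGE hd0
      filter_upwards [hmem] with t ht
      have := hL.char (α t) (hWt t ht.1 ht.2) (hrk t ht.1 ht.2) ξ
      simp only [Function.comp, Pi.sub_apply, q, this, sub_self]
    · have := hL.char z hz hr ξ
      simp only [Function.comp, Pi.sub_apply, hα0, q, this, sub_self]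
  have h3 := (uniqueDiffWithinAt_Ici (0 : ℝ)).eq_deriv _ h1.hasDerivWithinAt h2
  simp only [ContinuousLinearMap.sub_apply, ContinuousLinearMap.add_apply,
    ContinuousLinearMap.comp_apply, ContinuousLinearMap.flip_apply] at h3
  rw [sub_eq_zero] at h3
  rw [add_comm]
  exact h3

lemma pd_anti {Ω : Set (V n)} {Q : V n → Matrix (Fin n) (Fin n) ℝ} (h : EPois Ω Q) {z : V n}
    (hz : z ∈ Ω) (k i j : Fin n) :
    pd k (fun y => Q y i j) z = -pd k (fun y => Q y j i) z := by
  have h1 : (fun y => Q y i j) =ᶠ[𝓝 z] fun y => -Q y j i := by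
    filter_upwards [h.op.mem_nhds hz] with y hy using h.anti y hy i j
  unfold pd
  rw [h1.fderiv_eq, fderiv_fun_neg]
  rfl

/-- the commutator lies in the range of `Q z` -/
lemma in_range {Ω : Set (V n)} {Q : V n → Matrix (Fin n) (Fin n) ℝ} (h : EPois Ω Q) {z : V n}
    (hz : z ∈ Ω) (ξ η : V n) :
    ∃ om : V n, fderiv ℝ (q Q ξ) z (q Q η z) - fderiv ℝ (q Q η) z (q Q ξ z) = (Q z).mulVec om := by
  refine ⟨fun k => ∑ j, ∑ l, ξ j * η l * pd k (fun y => Q y j l) z, ?_⟩
  ext i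
  rw [Pi.sub_apply, fderiv_q h ξ hz, fderiv_q h η hz]
  have e1 : ∑ j, (∑ k, (q Q η z) k * pd k (fun y => Q y i j) z) * ξ j =
      ∑ j, ∑ l, ∑ k, ξ j * η l * (Q z k l * pd k (fun y => Q y i j) z) := by
    refine Finset.sum_congr rfl fun j _ => ?_
    rw [Finset.sum_comm, Finset.sum_mul]
    refine Finset.sum_congr rfl fun k _ => ?_
    show (∑ l, Q z k l * η l) * pd k (fun y => Q y i j) z * ξ j = _
    rw [Finset.sum_mul, Finset.sum_mul]
    exact Finset.sum_congr rfl fun l _ => by ring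
  have e2 : ∑ j, (∑ k, (q Q ξ z) k * pd k (fun y => Q y i j) z) * η j =
      ∑ j, ∑ l, ∑ k, ξ j * η l * (Q z k j * pd k (fun y => Q y i l) z) := by
    rw [Finset.sum_comm (s := (Finset.univ : Finset (Fin n)))
      (f := fun j l => ∑ k, ξ j * η l * (Q z k j * pd k (fun y => Q y i l) z))]
    refine Finset.sum_congr rfl fun l _ => ?_
    rw [Finset.sum_comm, Finset.sum_mul]
    refine Finset.sum_congr rfl fun k _ => ?_
    show (∑ j, Q z k j * ξ j) * pd k (fun y => Q y i l) z * η l = _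
    rw [Finset.sum_mul, Finset.sum_mul]
    exact Finset.sum_congr rfl fun j _ => by ring
  have e3 : (Q z).mulVec (fun k => ∑ j, ∑ l, ξ j * η l * pd k (fun y => Q y j l) z) i =
      ∑ j, ∑ l, ∑ k, ξ j * η l * (Q z i k * pd k (fun y => Q y j l) z) := by
    show ∑ k, Q z i k * (∑ j, ∑ l, ξ j * η l * pd k (fun y => Q y j l) z) = _
    simp only [Finset.mul_sum]
    rw [Finset.sum_comm]
    refine Finset.sum_congr rfl fun j _ => ?_
    rw [Finset.sum_comm]
    refine Finset.sum_congr rfl fun l _ => Finset.sum_congr rfl fun k _ => by ring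
  rw [e1, e2, e3, ← Finset.sum_sub_distrib]
  refine Finset.sum_congr rfl fun j _ => ?_
  rw [← Finset.sum_sub_distrib]
  refine Finset.sum_congr rfl fun l _ => ?_
  rw [← Finset.sum_sub_distrib]
  have hj := h.jac z hz i j l
  have h4 : ∑ k, (ξ j * η l * (Q z k l * pd k (fun y => Q y i j) z) -
      ξ j * η l * (Q z k j * pd k (fun y => Q y i l) z)) =
      ∑ k, ξ j * η l * (Q z i k * pd k (fun y => Q y j l) z) -
      ξ j * η l * ∑ k, (Q z i k * pd k (fun y => Q y j l) z +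
        Q z j k * pd k (fun y => Q y l i) z + Q z l k * pd k (fun y => Q y i j) z) := by
    rw [Finset.mul_sum, ← Finset.sum_sub_distrib]
    refine Finset.sum_congr rfl fun k _ => ?_
    rw [h.anti z hz j k, h.anti z hz l k, pd_anti h hz k l i]
    ring
  rw [h4, hj, mul_zero, sub_zero]

theorem t_INT (h : S_RC) : S_INT := by
  intro n r Ω W Q A L ζ hE hW hL z hz hr a a'
  have h1 := key h hE hW hL hz hr (ζ z a') (ζ z a)
  have h2 := key h hE hW hL hz hr (ζ z a) (ζ z a')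
  obtain ⟨om, hom⟩ := in_range hE (hW hz) (ζ z a') (ζ z a)
  have e1 : q Q (ζ z a) z = L z a := (hL.adm z hz a).symm
  have e2 : q Q (ζ z a') z = L z a' := (hL.adm z hz a').symm
  have hch := hL.char z hz hr om
  rw [e1, e2, hL.sec z hz] at h1
  rw [e1, e2, hL.sec z hz] at h2
  rw [e1, e2] at hom
  rw [← hom, map_sub, map_sub] at hch
  have h3 : fderiv ℝ L z (L z a) a' = fderiv ℝ (q Q (ζ z a')) z (L z a) -
      L z (A (fderiv ℝ (q Q (ζ z a')) z (L z a))) := by
    rw [eq_sub_iff_add_eq]; exact h1.symm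
  have h4 : fderiv ℝ L z (L z a') a = fderiv ℝ (q Q (ζ z a)) z (L z a') -
      L z (A (fderiv ℝ (q Q (ζ z a)) z (L z a'))) := by
    rw [eq_sub_iff_add_eq]; exact h2.symm
  rw [h3, h4, sub_eq_sub_iff_sub_eq_sub, ← hch]

end Pool.Agent.R235.PH.PINT
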