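import Pool.Agent.R235.PH.Stm

/-!
Piece LL: the local lemma on manifolds.
-/

set_option autoImplicit false

open Set Filter Topology
open scoped ContDiff Manifold

namespace Pool.Agent.R235.PH.PLL

open Pool.Agent.R235.PH

theorem epath_mono {n : ℕ} {Q : V n → Matrix (Fin n) (Fin n) ℝ} {A B : Set (V n)} (h : A ⊆ B)
    {a b : V n} (hp : EPath Q A a b) : EPath Q B a b := by
  obtain ⟨c, ζ, h1, h2, h3, h4, h5⟩ := hp
  exact ⟨c, ζ, h1, fun t ht => h (h2 t ht), h3, h4, h5⟩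

theorem hp_mono {n : ℕ} {M : Type} [TopologicalSpace M] [ChartedSpace (V n) M] {P : Poisson n M}
    {A B : Set M} (h : A ⊆ B) {a b : M} (hp : HP P A a b) : HP P B a b := by
  obtain ⟨γ, N, g, ζ, h1, h2, h3⟩ := hp
  exact ⟨γ, N, g, ζ, h1, fun t ht => h (h2 t ht), h3⟩

theorem t_LL (h1 : S_DER) (h2 : S_CP) (h3 : S_CR) (h4 : S_ELL) : S_LL := by
  intro n M _ _ _ _ P p r U hrk hU hpU
  obtain ⟨e, y, Q, hpe, hC⟩ := h1 n M P p
  obtain ⟨hEP, hME, hEM⟩ := h2 n M P e y Q hC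
  have hR := h3 n M P e y Q hC
  have rank_eq : ∀ x ∈ e.source, RankEq P r x → (Q (e x)).rank = r := by
    intro x hx hr
    have k1 := (hR r x hx).1 hr.1
    have k2 : ¬ (r + 1 ≤ (Q (e x)).rank) := fun h => hr.2 ((hR (r + 1) x hx).2 h)
    omega
  have hUo : IsOpen (e.target ∩ e.symm ⁻¹' U) := e.symm.isOpen_inter_preimage hU
  have hpUE : e p ∈ e.target ∩ e.symm ⁻¹' U := by
    refine ⟨e.map_source hpe, ?_⟩
    rw [mem_preimage, e.left_inv hpe]
    exact hpU
  obtain ⟨WE, hWo, hpW, hWU, hW⟩ := h4 n e.target (e.target ∩ e.symm ⁻¹' U) Q (e p) hEP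
    (e.map_source hpe) hUo hpUE
  refine ⟨e.source ∩ e ⁻¹' WE, e.isOpen_inter_preimage hWo, ⟨hpe, hpW⟩, ?_, ?_⟩
  · rintro x ⟨hx, hxW⟩
    have h := (hWU hxW).2
    rw [mem_preimage, e.left_inv hx] at h
    exact h
  · intro a b q ha hb hq haW har hch
    have hres := hW (fun k => e (a k)) (fun k => e (b k)) (e q)
      ((e.continuousAt hpe).tendsto.comp ha) ((e.continuousAt hq.1).tendsto.comp hb) hq.2
      (fun k => (haW k).2)
      (fun k => by rw [rank_eq (a k) (haW k).1 (har k), rank_eq p hpe hrk])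
      (fun k => by
        refine Relation.ReflTransGen.lift e ?_ _ _ (hch k)
        intro x z hxz
        refine epath_mono ?_ (hME (e.source ∩ e ⁻¹' WE) inter_subset_left x z hxz)
        rintro _ ⟨w, hw, rfl⟩
        exact hw.2)
    have hb2 := hEM (e.target ∩ e.symm ⁻¹' U) inter_subset_left _ _ hres
    rw [e.left_inv hpe, e.left_inv hq.1] at hb2
    refine Relation.ReflTransGen.single (hp_mono ?_ hb2)
    rintro _ ⟨w, hw, rfl⟩
    exact hw.2

end Pool.Agent.R235.PH.PLL
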