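import Pool.Agent.R235.PH.Stm

/-!
# MP_5d95cf_gt, piece MAIN: assembly
-/

set_option autoImplicit false

open Set Filter Topology
open scoped ContDiff Manifold

namespace Pool.Agent.R235.PH.PMAIN

section
variable {n : ℕ} {M : Type} [TopologicalSpace M] [ChartedSpace (V n) M]

/-- restriction and rescaling of an admissible curve -/
lemma HP_restrict (P : Poisson n M) {γ : ℝ → M} {N : ℕ} {h : Fin N → M → ℝ}
    {ζ : Fin N → ℝ → ℝ} (hγ : ContinuousOn γ (Icc 0 1)) (hh : ∀ i, Sm n (h i))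
    (hζ : ∀ i, Continuous (ζ i))
    (hd : ∀ f, Sm n f → ∀ t ∈ Icc (0 : ℝ) 1,
      HasDerivWithinAt (fun s => f (γ s)) (∑ i, ζ i t * P.br f (h i) (γ t)) (Icc 0 1) t)
    {t s : ℝ} (ht : t ∈ Icc (0 : ℝ) 1) (hs : s ∈ Icc (0 : ℝ) 1) {U : Set M}
    (hU : ∀ r ∈ Icc (0 : ℝ) 1, |r - t| ≤ |s - t| → γ r ∈ U) :
    HP P U (γ t) (γ s) := by
  have hmaps : MapsTo (fun u : ℝ => t + u * (s - t)) (Icc 0 1) (Icc 0 1) := by
    intro u hu
    obtain ⟨hu0, hu1⟩ := hu
    obtain ⟨ht0, ht1⟩ := ht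
    obtain ⟨hs0, hs1⟩ := hs
    constructor
    · have : t + u * (s - t) = (1 - u) * t + u * s := by ring
      change 0 ≤ t + u * (s - t)
      rw [this]
      have := mul_nonneg (sub_nonneg.2 hu1) ht0
      have := mul_nonneg hu0 hs0
      linarith
    · have : t + u * (s - t) = (1 - u) * t + u * s := by ring
      change t + u * (s - t) ≤ 1
      rw [this]
      have h1 := mul_le_mul_of_nonneg_left ht1 (sub_nonneg.2 hu1)
      have h2 := mul_le_mul_of_nonneg_left hs1 hu0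
      linarith
  have hcont : Continuous (fun u : ℝ => t + u * (s - t)) := by fun_prop
  refine ⟨fun u => γ (t + u * (s - t)), N, h, fun i u => (s - t) * ζ i (t + u * (s - t)),
    hγ.comp hcont.continuousOn hmaps, ?_, ?_, ?_, hh, ?_, ?_⟩
  · intro u hu
    refine hU _ (hmaps hu) ?_
    have : t + u * (s - t) - t = u * (s - t) := by ring
    rw [this, abs_mul, abs_of_nonneg hu.1]
    exact mul_le_of_le_one_left (abs_nonneg _) hu.2
  · simp
  · simp
  · intro i
    exact continuous_const.mul ((hζ i).comp hcont)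
  · intro f hf u hu
    have h1 := hd f hf (t + u * (s - t)) (hmaps hu)
    have h2 : HasDerivWithinAt (fun u : ℝ => t + u * (s - t)) (s - t) (Icc 0 1) u := by
      have := ((hasDerivAt_id u).mul_const (s - t)).const_add t
      simpa using this.hasDerivWithinAt
    have h3 := h1.scomp u h2 hmaps
    have h4 : (∑ i, (s - t) * ζ i (t + u * (s - t)) * P.br f (h i) (γ (t + u * (s - t)))) =
        (s - t) • ∑ i, ζ i (t + u * (s - t)) * P.br f (h i) (γ (t + u * (s - t))) := by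
      rw [smul_eq_mul, Finset.mul_sum]
      exact Finset.sum_congr rfl fun i _ => by ring
    simp only
    rw [h4]
    exact h3

end

/-- the limit maps leaves into leaves -/
lemma leaf_map (h1 : S_CT) (h2 : S_RK) {n : ℕ} {M : Type} [TopologicalSpace M] [T2Space M]
    [ChartedSpace (V n) M] [IsManifold 𝓘(ℝ, V n) ∞ M] (P : Poisson n M) (φ : ℕ → M ≃ₜ M)
    (φ0 : M ≃ₜ M) (hP : ∀ k, IsPD P (φ k)) (hc : Conv φ φ0) (x y : M) (hy : y ∈ leaf P x) :
    φ0 y ∈ leaf P (φ0 x) := by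
  have hsymm : ∀ a b : M, a ∈ leaf P b → b ∈ leaf P a := by
    intro a b hab
    have : Std.Symm (HP P (univ : Set M)) := ⟨fun a b h => ((h2 n M P).2.2.2 univ a b h).1⟩
    exact (Relation.ReflTransGen.stdSymm (r := HP P (univ : Set M))).symm _ _ hab
  have htrans : ∀ a b c : M, b ∈ leaf P a → c ∈ leaf P b → c ∈ leaf P a := by
    intro a b c hab hbc
    exact Relation.ReflTransGen.trans hab hbc
  have hone : ∀ a b : M, HP P univ a b → φ0 b ∈ leaf P (φ0 a) := by
    rintro a b ⟨γ, N, h, ζ, hγ, -, h0, h1', hh, hζ, hd⟩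
    have key := isPreconnected_Icc.induction₂ (s := Icc (0 : ℝ) 1)
      (fun t s => φ0 (γ s) ∈ leaf P (φ0 (γ t))) (x := 0) (y := 1) ?_ ?_ ?_
      (by simp) (by simp)
    · simpa [h0, h1'] using key
    · intro t ht
      obtain ⟨U', hU', htU', hCT⟩ := h1 n M P φ φ0 hP hc (γ t) univ isOpen_univ (mem_univ _)
      have hev : ∀ᶠ r in 𝓝[Icc 0 1] t, γ r ∈ U' := (hγ t ht) (hU'.mem_nhds htU')
      rw [eventually_nhdsWithin_iff, Metric.eventually_nhds_iff] at hev
      obtain ⟨ε, hε, hev⟩ := hev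
      rw [eventually_nhdsWithin_iff, Metric.eventually_nhds_iff]
      refine ⟨ε, hε, fun s hs hsI => ?_⟩
      rw [Real.dist_eq] at hs
      have hp : HP P U' (γ t) (γ s) := by
        refine HP_restrict P hγ hh hζ hd ht hsI ?_
        intro r hr hrs
        exact hev (by rw [Real.dist_eq]; exact hrs.trans_lt hs) hr
      exact hCT _ (Relation.ReflTransGen.single hp)
    · intro t s r _ _ _ hts hsr
      exact htrans _ _ _ hts hsr
    · intro t s _ _ hts
      exact hsymm _ _ hts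
  have hy' : Relation.ReflTransGen (HP P univ) x y := hy
  induction hy' with
  | refl => exact Relation.ReflTransGen.refl
  | tail hab hbc ih => exact htrans _ _ _ (ih hab) (hone _ _ hbc)

/-- continuity for the leaf topologies -/
lemma leaf_cont (h1 : S_CT) {n : ℕ} {M : Type} [TopologicalSpace M] [T2Space M]
    [ChartedSpace (V n) M] [IsManifold 𝓘(ℝ, V n) ∞ M] (P : Poisson n M) (φ : ℕ → M ≃ₜ M)
    (φ0 : M ≃ₜ M) (hP : ∀ k, IsPD P (φ k)) (hc : Conv φ φ0) :
    Continuous[leafTop P, leafTop P] φ0 := by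
  refine @Continuous.mk M M (leafTop P) (leafTop P) _ ?_
  intro S hS x hx
  obtain ⟨U, hU, hxU, hUS⟩ := hS (φ0 x) hx
  obtain ⟨U', hU', hxU', hCT⟩ := h1 n M P φ φ0 hP hc x U hU hxU
  exact ⟨U', hU', hxU', fun y hy => hUS (hCT y hy)⟩

theorem t_MAIN (h1 : S_CT) (h2 : S_RK) (h3 : S_AR) : S_MAIN := by
  intro n M _ _ _ _ P φ φ0 hP hc x
  have hconv : Conv φ φ0 := by
    rw [ContinuousMap.tendsto_nhds_compactOpen] at hc
    intro K U hK hU hm
    exact hc K hK U hU hm
  have hconv' : Conv (fun k => (φ k).symm) φ0.symm := h3 n M φ φ0 hconv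
  have hP' : ∀ k, IsPD P (φ k).symm := fun k => (h2 n M P).1 _ (hP k)
  have hmap : ∀ x y, y ∈ leaf P x → φ0 y ∈ leaf P (φ0 x) := leaf_map h1 h2 P φ φ0 hP hconv
  have hmap' : ∀ x y, y ∈ leaf P x → φ0.symm y ∈ leaf P (φ0.symm x) :=
    leaf_map h1 h2 P _ φ0.symm hP' hconv'
  have hback : ∀ y, y ∈ leaf P (φ0 x) → φ0.symm y ∈ leaf P x := by
    intro y hy
    simpa using hmap' _ _ hy
  refine ⟨?_, ⟨fun y => ⟨φ0 y, hmap _ _ y.2⟩, fun y => ⟨φ0.symm y, hback _ y.2⟩,
    fun y => Subtype.ext (by simp), fun y => Subtype.ext (by simp)⟩, fun y => rfl, ?_, ?_⟩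
  · ext y
    constructor
    · rintro ⟨z, hz, rfl⟩
      exact hmap _ _ hz
    · intro hy
      exact ⟨φ0.symm y, hback _ hy, by simp⟩
  · have hc1 := leaf_cont h1 P φ φ0 hP hconv
    refine (@continuous_induced_rng _ _ _ Subtype.val _ (leafTop P) (leafTopAt P x)).2 ?_
    exact @Continuous.comp _ _ _ (leafTopAt P x) (leafTop P) (leafTop P) _ _ hc1
      (@continuous_induced_dom _ _ Subtype.val (leafTop P))
  · have hc1 := leaf_cont h1 P _ φ0.symm hP' hconv'
    refine (@continuous_induced_rng _ _ _ Subtype.val _ (leafTop P) (leafTopAt P (φ0 x))).2 ?_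
    exact @Continuous.comp _ _ _ (leafTopAt P (φ0 x)) (leafTop P) (leafTop P) _ _ hc1
      (@continuous_induced_dom _ _ Subtype.val (leafTop P))

end Pool.Agent.R235.PH.PMAIN
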