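import Pool.Agent.R235.PH.Stm
import Pool.Agent.Helper27.Har.P_global_ode

/-! PH-RC (MP_5d95cf_gt): the rank is constant along admissible curves. helper710. -/

set_option autoImplicit false

open Set Filter Topology
open scoped ContDiff Manifold NNReal

namespace Pool.Agent.R235.PH

namespace PRC

variable {n : ℕ}

/-- matrices as continuous linear maps -/
noncomputable def T : Matrix (Fin n) (Fin n) ℝ →ₗ[ℝ] (V n →L[ℝ] V n) :=
  (LinearMap.toContinuousLinearMap : (V n →ₗ[ℝ] V n) ≃ₗ[ℝ] (V n →L[ℝ] V n)).toLinearMap ∘ₗ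
    (Matrix.toLin' : Matrix (Fin n) (Fin n) ℝ ≃ₗ[ℝ] (V n →ₗ[ℝ] V n)).toLinearMap

theorem T_apply (A : Matrix (Fin n) (Fin n) ℝ) (v : V n) : T A v = A.mulVec v := by
  simp [T]

theorem T_mul (A B : Matrix (Fin n) (Fin n) ℝ) : T (A * B) = T A * T B := by
  ext v : 1
  rw [mul_apply_eq_comp, T_apply, T_apply, T_apply, Matrix.mulVec_mulVec]

theorem T_inj : Function.Injective (T : Matrix (Fin n) (Fin n) ℝ → (V n →L[ℝ] V n)) := by
  intro A B h
  have h1 : ∀ v, A.mulVec v = B.mulVec v := by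
    intro v
    rw [← T_apply, ← T_apply, h]
  have h2 : Matrix.toLin' A = Matrix.toLin' B := by
    ext1
    ext1
    simp only [LinearMap.comp_apply, Matrix.toLin'_apply]
    rw [h1]
  exact Matrix.toLin'.injective h2

theorem T_surj (Ψ : V n →L[ℝ] V n) : ∃ A : Matrix (Fin n) (Fin n) ℝ, T A = Ψ := by
  refine ⟨LinearMap.toMatrix' (Ψ : V n →ₗ[ℝ] V n), ?_⟩
  ext v : 1
  rw [T_apply, ← Matrix.toLin'_apply, Matrix.toLin'_toMatrix']
  rfl

/-- the same on the pi type -/
noncomputable def Tc : (Fin n → Fin n → ℝ) →L[ℝ] (V n →L[ℝ] V n) :=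
  LinearMap.toContinuousLinearMap (T ∘ₗ (Matrix.ofLinearEquiv ℝ).toLinearMap)

theorem Tc_apply (f : Fin n → Fin n → ℝ) : Tc f = T (Matrix.of f) := rfl

theorem fderiv_sum (f : V n → ℝ) (z v : V n) : fderiv ℝ f z v = ∑ k, v k * pd k f z := by
  have h := (fderiv ℝ f z).toLinearMap.pi_apply_eq_sum_univ v
  simp only [ContinuousLinearMap.coe_coe] at h
  rw [h]
  refine Finset.sum_congr rfl fun k _ => ?_
  rw [smul_eq_mul]
  congr 1
  unfold pd
  congr 1
  funext j
  by_cases hjk : k = j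
  · subst hjk; simp
  · rw [if_neg hjk, Pi.single_eq_of_ne (Ne.symm hjk)]

/-- the coefficient matrix -/
noncomputable def AA (Q : V n → Matrix (Fin n) (Fin n) ℝ) (z ζ : V n) :
    Matrix (Fin n) (Fin n) ℝ :=
  Matrix.of fun i k => ∑ j, pd k (fun y => Q y i j) z * ζ j

theorem algebra (Ω : Set (V n)) (Q : V n → Matrix (Fin n) (Fin n) ℝ) (hQ : EPois Ω Q)
    (z ζ : V n) (hz : z ∈ Ω) (i j : Fin n) :
    fderiv ℝ (fun y => Q y i j) z ((Q z).mulVec ζ) =
      (AA Q z ζ * Q z + Q z * (AA Q z ζ).transpose) i j := by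
  rw [fderiv_sum]
  have hanti : ∀ k l, pd k (fun y => Q y l i) z = -pd k (fun y => Q y i l) z := by
    intro k l
    unfold pd
    have h1 : (fun y => Q y l i) =ᶠ[𝓝 z] fun y => -(Q y i l) := by
      filter_upwards [hQ.op.mem_nhds hz] with y hy
      exact hQ.anti y hy l i
    rw [h1.fderiv_eq, fderiv_fun_neg]
    simp
  have hjac : ∀ l, ∑ k, Q z l k * pd k (fun y => Q y i j) z =
      -(∑ k, Q z i k * pd k (fun y => Q y j l) z) - ∑ k, Q z k j * pd k (fun y => Q y i l) z := by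
    intro l
    have h1 := hQ.jac z hz i j l
    rw [Finset.sum_add_distrib, Finset.sum_add_distrib] at h1
    have h2 : ∑ k, Q z j k * pd k (fun y => Q y l i) z =
        ∑ k, Q z k j * pd k (fun y => Q y i l) z := by
      refine Finset.sum_congr rfl fun k _ => ?_
      rw [hanti, hQ.anti z hz j k]
      ring
    rw [h2] at h1
    linarith
  rw [Matrix.add_apply, Matrix.mul_apply, Matrix.mul_apply]
  simp only [AA, Matrix.transpose_apply, Matrix.of_apply, Matrix.mulVec, dotProduct]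
  have e1 : ∑ k, (∑ l, Q z k l * ζ l) * pd k (fun y => Q y i j) z =
      ∑ l, ζ l * (-∑ k, Q z l k * pd k (fun y => Q y i j) z) := by
    simp_rw [Finset.sum_mul]
    rw [Finset.sum_comm]
    refine Finset.sum_congr rfl fun l _ => ?_
    rw [← Finset.sum_neg_distrib, Finset.mul_sum]
    refine Finset.sum_congr rfl fun k _ => ?_
    rw [hQ.anti z hz k l]
    ring
  have e2 : ∑ k, (∑ l, pd k (fun y => Q y i l) z * ζ l) * Q z k j =
      ∑ l, ζ l * ∑ k, Q z k j * pd k (fun y => Q y i l) z := by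
    simp_rw [Finset.sum_mul]
    rw [Finset.sum_comm]
    refine Finset.sum_congr rfl fun l _ => ?_
    rw [Finset.mul_sum]
    refine Finset.sum_congr rfl fun k _ => ?_
    ring
  have e3 : ∑ k, Q z i k * (∑ l, pd k (fun y => Q y j l) z * ζ l) =
      ∑ l, ζ l * ∑ k, Q z i k * pd k (fun y => Q y j l) z := by
    simp_rw [Finset.mul_sum]
    rw [Finset.sum_comm]
    refine Finset.sum_congr rfl fun l _ => ?_
    refine Finset.sum_congr rfl fun k _ => ?_
    ring
  rw [e1, e2, e3, ← Finset.sum_add_distrib]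
  refine Finset.sum_congr rfl fun l _ => ?_
  rw [hjac l]
  ring

/-- one inequality -/
theorem rank_le (Ω : Set (V n)) (Q : V n → Matrix (Fin n) (Fin n) ℝ) (a b : V n)
    (hQ : EPois Ω Q) (h : EPath Q Ω a b) : (Q b).rank ≤ (Q a).rank := by
  obtain ⟨c, ζ, hζ, hcΩ, hc0, hc1, hcd⟩ := h
  have hcc : ContinuousOn c (Icc 0 1) := fun t ht => (hcd t ht).continuousWithinAt
  -- the coefficients
  have hpd : ∀ i j k, ContinuousOn (fun z => pd k (fun y => Q y i j) z) Ω := by
    intro i j k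
    unfold pd
    exact ((hQ.smooth i j).continuousOn_fderiv_of_isOpen hQ.op (by norm_num)).clm_apply
      continuousOn_const
  have hAc : ContinuousOn (fun t => (fun i k => AA Q (c t) (ζ t) i k : Fin n → Fin n → ℝ))
      (Icc 0 1) := by
    refine continuousOn_pi.2 fun i => continuousOn_pi.2 fun k => ?_
    simp only [AA, Matrix.of_apply]
    refine continuousOn_finsetSum _ fun j _ => ?_
    refine ((hpd i j k).comp hcc hcΩ).mul ?_
    exact ((continuous_apply j).comp hζ).continuousOn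
  have hAc' : ContinuousOn (fun t => (fun i k => AA Q (c t) (ζ t) k i : Fin n → Fin n → ℝ))
      (Icc 0 1) := by
    refine continuousOn_pi.2 fun i => continuousOn_pi.2 fun k => ?_
    exact (continuousOn_pi.1 (continuousOn_pi.1 hAc k) i)
  obtain ⟨π, hπ⟩ : ∃ π : ℝ → ℝ, π = fun t => (projIcc (0 : ℝ) 1 zero_le_one t : ℝ) := ⟨_, rfl⟩
  have hπc : Continuous π := by rw [hπ]; exact continuous_subtype_val.comp continuous_projIcc
  have hπm : ∀ t, π t ∈ Icc (0 : ℝ) 1 := by
    intro t; rw [hπ]; exact (projIcc (0 : ℝ) 1 zero_le_one t).2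
  have hπe : ∀ t ∈ Icc (0 : ℝ) 1, π t = t := by
    intro t ht
    rw [hπ]
    simp only
    rw [projIcc_of_mem zero_le_one ht]
  obtain ⟨α, hα⟩ : ∃ α : ℝ → (V n →L[ℝ] V n), α = fun t => T (AA Q (c (π t)) (ζ (π t))) :=
    ⟨_, rfl⟩
  obtain ⟨β, hβ⟩ : ∃ β : ℝ → (V n →L[ℝ] V n),
      β = fun t => T (AA Q (c (π t)) (ζ (π t))).transpose := ⟨_, rfl⟩
  have hα0c : ContinuousOn (fun t => T (AA Q (c t) (ζ t))) (Icc 0 1) :=
    Tc.continuous.comp_continuousOn hAc
  have hβ0c : ContinuousOn (fun t => T (AA Q (c t) (ζ t)).transpose) (Icc 0 1) :=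
    Tc.continuous.comp_continuousOn hAc'
  have hαc : Continuous α := by
    rw [hα]
    exact hα0c.comp_continuous hπc hπm
  have hβc : Continuous β := by
    rw [hβ]
    exact hβ0c.comp_continuous hπc hπm
  obtain ⟨C1, hC1⟩ := isCompact_Icc.exists_bound_of_continuousOn hα0c
  obtain ⟨C2, hC2⟩ := isCompact_Icc.exists_bound_of_continuousOn hβ0c
  have hb1 : ∀ t, ‖α t‖ ≤ C1 := by
    intro t; rw [hα]; exact hC1 _ (hπm t)
  have hb2 : ∀ t, ‖β t‖ ≤ C2 := by
    intro t; rw [hβ]; exact hC2 _ (hπm t)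
  have hC10 : 0 ≤ C1 := (norm_nonneg _).trans (hb1 0)
  have hC20 : 0 ≤ C2 := (norm_nonneg _).trans (hb2 0)
  have hL1 : ∀ t, LipschitzWith ⟨C1, hC10⟩ (fun X : V n →L[ℝ] V n => α t * X) := by
    intro t
    refine LipschitzWith.of_dist_le_mul fun X Y => ?_
    rw [dist_eq_norm, dist_eq_norm, ← mul_sub]
    exact (norm_mul_le _ _).trans (mul_le_mul_of_nonneg_right (hb1 t) (norm_nonneg _))
  have hL2 : ∀ t, LipschitzWith ⟨C2, hC20⟩ (fun X : V n →L[ℝ] V n => X * β t) := by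
    intro t
    refine LipschitzWith.of_dist_le_mul fun X Y => ?_
    rw [dist_eq_norm, dist_eq_norm, ← sub_mul]
    refine (norm_mul_le _ _).trans ?_
    rw [mul_comm]
    exact mul_le_mul_of_nonneg_right (hb2 t) (norm_nonneg _)
  have hL3 : ∀ t, LipschitzWith (⟨C1, hC10⟩ + ⟨C2, hC20⟩)
      (fun X : V n →L[ℝ] V n => α t * X + X * β t) := fun t => (hL1 t).add (hL2 t)
  obtain ⟨Ψ, hΨ0, hΨ⟩ := Haraux.global_ode (fun t (X : V n →L[ℝ] V n) => α t * X) _ hL1
    (by
      show Continuous (fun p : ℝ × (V n →L[ℝ] V n) => α p.1 * p.2)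
      exact (hαc.comp continuous_fst).mul continuous_snd) 1
  obtain ⟨Θ, hΘ0, hΘ⟩ := Haraux.global_ode (fun t (X : V n →L[ℝ] V n) => X * β t) _ hL2
    (by
      show Continuous (fun p : ℝ × (V n →L[ℝ] V n) => p.2 * β p.1)
      exact continuous_snd.mul (hβc.comp continuous_fst)) 1
  -- the two solutions
  have hX : ∀ t, HasDerivAt (fun t => Ψ t * T (Q a) * Θ t)
      (α t * (Ψ t * T (Q a) * Θ t) + (Ψ t * T (Q a) * Θ t) * β t) t := by
    intro t
    have h1 := ((hΨ t).mul_const (T (Q a))).mul (hΘ t)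
    refine HasDerivAt.congr_deriv h1 ?_
    simp only [mul_assoc]
  have hY : ∀ t ∈ Icc (0 : ℝ) 1, HasDerivWithinAt (fun t => T (Q (c t)))
      (α t * T (Q (c t)) + T (Q (c t)) * β t) (Icc 0 1) t := by
    intro t ht
    have h1 : HasDerivWithinAt (fun t => (fun i j => Q (c t) i j : Fin n → Fin n → ℝ))
        (fun i j => (AA Q (c t) (ζ t) * Q (c t) + Q (c t) * (AA Q (c t) (ζ t)).transpose) i j)
        (Icc 0 1) t := by
      refine hasDerivWithinAt_pi.2 fun i => hasDerivWithinAt_pi.2 fun j => ?_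
      rw [← algebra Ω Q hQ (c t) (ζ t) (hcΩ t ht) i j]
      have h2 : HasFDerivAt (fun y => Q y i j) (fderiv ℝ (fun y => Q y i j) (c t)) (c t) :=
        (((hQ.smooth i j).differentiableOn (by norm_num)).differentiableAt
          (hQ.op.mem_nhds (hcΩ t ht))).hasFDerivAt
      exact h2.comp_hasDerivWithinAt t (hcd t ht)
    have h3 := (Tc (n := n)).hasFDerivAt.comp_hasDerivWithinAt t h1
    refine HasDerivWithinAt.congr_deriv h3 ?_
    show T (AA Q (c t) (ζ t) * Q (c t) + Q (c t) * (AA Q (c t) (ζ t)).transpose) = _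
    rw [map_add, T_mul, T_mul, hα, hβ]
    simp only
    rw [hπe t ht]
  have huniq := ODE_solution_unique (v := fun t (X : V n →L[ℝ] V n) => α t * X + X * β t)
    (K := ⟨C1, hC10⟩ + ⟨C2, hC20⟩) (a := 0) (b := 1) hL3
    (f := fun t => T (Q (c t))) (g := fun t => Ψ t * T (Q a) * Θ t)
    (fun t ht => (hY t ht).continuousWithinAt)
    (fun t ht => (hY t ⟨ht.1, ht.2.le⟩).mono_of_mem_nhdsWithin
      (mem_of_superset (Icc_mem_nhdsGE ht.2) (Icc_subset_Icc ht.1 le_rfl)))
    (fun t _ => (hX t).continuousAt.continuousWithinAt)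
    (fun t _ => (hX t).hasDerivWithinAt)
    (by simp only [hc0, hΨ0, hΘ0, one_mul, mul_one])
  have h1 := huniq (right_mem_Icc.2 zero_le_one)
  simp only [hc1] at h1
  obtain ⟨A1, hA1⟩ := T_surj (Ψ 1)
  obtain ⟨A2, hA2⟩ := T_surj (Θ 1)
  rw [← hA1, ← hA2, ← T_mul, ← T_mul] at h1
  rw [T_inj h1]
  exact (Matrix.rank_mul_le_left _ _).trans (Matrix.rank_mul_le_right _ _)

/-- reversal -/
theorem rev (Ω : Set (V n)) (Q : V n → Matrix (Fin n) (Fin n) ℝ) (a b : V n)
    (h : EPath Q Ω a b) : EPath Q Ω b a := by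
  obtain ⟨c, ζ, hζ, hcΩ, hc0, hc1, hcd⟩ := h
  have hm : ∀ t ∈ Icc (0 : ℝ) 1, 1 - t ∈ Icc (0 : ℝ) 1 := by
    intro t ht
    exact ⟨by linarith [ht.2], by linarith [ht.1]⟩
  refine ⟨fun t => c (1 - t), fun t => -ζ (1 - t), ?_, fun t ht => hcΩ _ (hm t ht), ?_, ?_, ?_⟩
  · exact (hζ.comp (continuous_const.sub continuous_id)).neg
  · simp [hc1]
  · simp [hc0]
  · intro t ht
    have h1 : HasDerivWithinAt (fun t : ℝ => 1 - t) (-1) (Icc 0 1) t := by
      simpa using ((hasDerivAt_id t).const_sub 1).hasDerivWithinAt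
    have h2 := HasDerivWithinAt.scomp t (hcd (1 - t) (hm t ht)) h1 hm
    refine HasDerivWithinAt.congr_deriv h2 ?_
    rw [Matrix.mulVec_neg, neg_one_smul]

theorem t_RC : S_RC := by
  intro n Ω Q a b hQ h
  exact le_antisymm (rank_le Ω Q b a hQ (rev Ω Q a b h)) (rank_le Ω Q a b hQ h)

end PRC

end Pool.Agent.R235.PH
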